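import Mathlib
import Pool.Agent.Helper760.Profile

set_option autoImplicit false

namespace Pool.Agent.Helper760.GW

open Encodable MeasureTheory

/-- Functionals computed by oracle machines: `F A n` is the output of the machine on input `n` with
the infinite binary sequence `A` as the oracle. One machine works for all oracles. The clauses are
those of the partial recursive functions, and the query `n ↦ A n`. -/
inductive OracleRec : ((ℕ → Bool) → ℕ →. ℕ) → Prop
  | zero : OracleRec (fun _ _ => Part.some 0)
  | succ : OracleRec (fun _ n => Part.some (n + 1))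
  | left : OracleRec (fun _ n => Part.some n.unpair.1)
  | right : OracleRec (fun _ n => Part.some n.unpair.2)
  | query : OracleRec (fun A n => Part.some (A n).toNat)
  | pair {f g : (ℕ → Bool) → ℕ →. ℕ} : OracleRec f → OracleRec g →
      OracleRec (fun A n => Nat.pair <$> f A n <*> g A n)
  | comp {f g : (ℕ → Bool) → ℕ →. ℕ} : OracleRec f → OracleRec g →
      OracleRec (fun A n => g A n >>= f A)
  | prec {f g : (ℕ → Bool) → ℕ →. ℕ} : OracleRec f → OracleRec g →
      OracleRec (fun A p =>
        let (a, n) := Nat.unpair p
        n.rec (f A a) fun y IH => do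
          let i ← IH
          g A (Nat.pair a (Nat.pair y i)))
  | rfind {f : (ℕ → Bool) → ℕ →. ℕ} : OracleRec f →
      OracleRec (fun A a => Nat.rfind fun n => (fun m => m = 0) <$> f A (Nat.pair a n))

/-- `V A p y` is the output of a conditional decompressor with oracle `A` on program `p` and
condition `y`; the decompressor is an oracle machine. -/
def OracleDec (V : (ℕ → Bool) → List Bool → List Bool →. List Bool) : Prop :=
  ∃ F : (ℕ → Bool) → ℕ →. ℕ, OracleRec F ∧ ∀ (A : ℕ → Bool) (p y s : List Bool),
    s ∈ V A p y ↔ encode s ∈ F A (Nat.pair (encode p) (encode y))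

/-- Optimal conditional decompressors with oracle: every other one is simulated, for all oracles at
once, with programs longer by at most a constant. -/
def OptimalOracle (V : (ℕ → Bool) → List Bool → List Bool →. List Bool) : Prop :=
  OracleDec V ∧ ∀ W : (ℕ → Bool) → List Bool → List Bool →. List Bool, OracleDec W →
    ∃ c : ℕ, ∀ (A : ℕ → Bool) (p y s : List Bool), s ∈ W A p y →
      ∃ q : List Bool, s ∈ V A q y ∧ q.length ≤ p.length + c

/-- Optimal conditional decompressors without oracle. -/
def OptimalCond (D : List Bool → List Bool →. List Bool) : Prop :=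
  Partrec₂ D ∧ ∀ E : List Bool → List Bool →. List Bool, Partrec₂ E →
    ∃ c : ℕ, ∀ p y s : List Bool, s ∈ E p y → ∃ q : List Bool, s ∈ D q y ∧ q.length ≤ p.length + c

/-- Conditional complexity of `s` given `y` with respect to the decompressor `D`: the least length
of a program `p` with `D(p, y) = s`. The unconditional complexity is the one with the empty
condition. -/
noncomputable def condC (D : List Bool → List Bool →. List Bool) (s y : List Bool) : ℕ :=
  sInf {m : ℕ | ∃ p : List Bool, s ∈ D p y ∧ p.length = m}

/-- The Gray–Wyner profile of the pair `(x, y)`, for the complexity given by `D`. -/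
def GW (D : List Bool → List Bool →. List Bool) (x y : List Bool) : Set (ℝ × ℝ × ℝ) :=
  {t | 0 ≤ t.1 ∧ 0 ≤ t.2.1 ∧ 0 ≤ t.2.2 ∧ ∃ q : List Bool, (condC D q [] : ℝ) ≤ t.2.2 ∧
    (condC D x q : ℝ) ≤ t.1 ∧ (condC D y q : ℝ) ≤ t.2.1}

/-- The triples which get into the profile when all coordinates are increased by `δ`. -/
def GWplus (δ : ℝ) (D : List Bool → List Bool →. List Bool) (x y : List Bool) :
    Set (ℝ × ℝ × ℝ) :=
  {t | (t.1 + δ, t.2.1 + δ, t.2.2 + δ) ∈ GW D x y}

/-- The fair coin measure on infinite binary sequences. -/
noncomputable def coin : Measure (ℕ → Bool) :=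
  Measure.infinitePi (fun _ => (PMF.uniformOfFintype Bool).toMeasure)

/-- the first `k` bits of the oracle -/
def preB (A : ℕ → Bool) (k : ℕ) : List Bool := (List.range k).map A

end Pool.Agent.Helper760.GW
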