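import Mathlib
import Pool.Agent.Helper760.GW.Defs
import Pool.Agent.Helper760.Cov.Defs2
import Pool.Agent.Helper760.Cov.Num

set_option autoImplicit false

namespace Pool.Agent.Helper760.GW

open Encodable MeasureTheory
open Pool.Agent.Helper760.Kolm

/-- monotone in the known part of the oracle -/
def MonB {α β : Type*} (G : List Bool → α → Option β) : Prop :=
  ∀ (σ τ : List Bool) (a : α) (b : β), σ <+: τ → G σ a = some b → G τ a = some b

/-- labels: strings of complexity at most `n0` found in `t` steps -/
def lab (n0 t : ℕ) : List (List Bool) := collect (enX n0) t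

/-- code of a program of length at most `g` by a string of length `g + 1` -/
def code (g : ℕ) (p : List Bool) : List Bool := List.replicate (g - p.length) false ++ true :: p

/-- decoding -/
def dec (c : List Bool) : List Bool := (c.dropWhile (fun b => !b)).tail

/-- labels of the strings with complexity at most `a` given `q` -/
def half (G : List Bool → List Bool × List Bool → Option (List Bool)) (ρ q : List Bool) (a : ℕ)
    (L : List (List Bool)) : List ℕ :=
  (List.range L.length).filter (fun j => ∃ w ∈ allLe a, G ρ (w, q) = L[j]?)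

/-- the elements enumerated at the point `σ` -/
def fGW (G : List Bool → List Bool × List Bool → Option (List Bool)) (z : ℕ × ℕ × ℕ × ℕ × ℕ)
    (σ : List Bool) : List ℕ :=
  if σ.length < z.2.2.2.1 + 1 then [] else
  match G (σ.drop (z.2.2.2.1 + 1)) (dec (σ.take (z.2.2.2.1 + 1)), []) with
  | none => []
  | some q =>
    (half G (σ.drop (z.2.2.2.1 + 1)) q z.2.1 (lab z.1 σ.length)).map (fun j => 2 * j) ++
    (half G (σ.drop (z.2.2.2.1 + 1)) q z.2.2.1 (lab z.1 σ.length)).map (fun j => 2 * j + 1)

/-- parameters of the game -/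
def prm (z : ℕ × ℕ × ℕ × ℕ × ℕ) : ℕ × ℕ × ℕ × ℕ :=
  (z.1 + z.2.1 + z.2.2.1 + z.2.2.2.1 + z.2.2.2.2 + 5, z.2.1 + 1, z.2.2.1 + 1,
    z.2.2.2.1 + 1 + z.2.2.2.2)

/-- the event that some `q` works, seen with a finite part of the oracle -/
def PGW (G : List Bool → List Bool × List Bool → Option (List Bool)) (a b g : ℕ)
    (x y : List Bool) (ρ : List Bool) : Prop :=
  ∃ p ∈ allLe g, ∃ q, G ρ (p, []) = some q ∧ (∃ w ∈ allLe a, G ρ (w, q) = some x) ∧
    ∃ w ∈ allLe b, G ρ (w, q) = some y

end Pool.Agent.Helper760.GW
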