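import Mathlib
import Pool.Agent.Helper760.OracleNF
import Pool.Agent.Helper760.GW.Defs2

set_option autoImplicit false

namespace Pool.Agent.Helper760.GW.J1457

open Encodable MeasureTheory

open OracleNF in
theorem nf_unif0 (F : (ℕ → Bool) → ℕ →. ℕ) (hF : OracleRec F) :
    ∃ F' : List ℕ → ℕ → Option ℕ, Primrec₂ F' ∧ Mon F' ∧
      (∀ (A : ℕ → Bool) (n m : ℕ), m ∈ F A n ↔
        ∃ k, F' (pre (fun i => (A i).toNat) k) n = some m) := by
  induction hF with
  | zero =>
    refine ⟨fun _ _ => some 0, Primrec.const _, fun _ _ _ _ _ h => h, fun A n m => ?_⟩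
    constructor
    · intro h
      have : m = 0 := Part.mem_some_iff.1 h
      exact ⟨0, by simp [this]⟩
    · rintro ⟨k, hk⟩
      simp only [Option.some.injEq] at hk
      subst hk
      exact Part.mem_some _
  | succ =>
    refine ⟨fun _ n => some (n + 1), Primrec.option_some.comp (Primrec.succ.comp Primrec.snd),
      fun _ _ _ _ _ h => h, fun A n m => ?_⟩
    constructor
    · intro h
      have : m = n + 1 := Part.mem_some_iff.1 h
      exact ⟨0, by simp [this]⟩
    · rintro ⟨k, hk⟩
      simp only [Option.some.injEq] at hk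
      subst hk
      exact Part.mem_some _
  | left =>
    refine ⟨fun _ n => some n.unpair.1,
      Primrec.option_some.comp (Primrec.fst.comp (Primrec.unpair.comp Primrec.snd)),
      fun _ _ _ _ _ h => h, fun A n m => ?_⟩
    constructor
    · intro h
      have : m = n.unpair.1 := Part.mem_some_iff.1 h
      exact ⟨0, by simp [this]⟩
    · rintro ⟨k, hk⟩
      simp only [Option.some.injEq] at hk
      subst hk
      exact Part.mem_some _
  | right =>
    refine ⟨fun _ n => some n.unpair.2,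
      Primrec.option_some.comp (Primrec.snd.comp (Primrec.unpair.comp Primrec.snd)),
      fun _ _ _ _ _ h => h, fun A n m => ?_⟩
    constructor
    · intro h
      have : m = n.unpair.2 := Part.mem_some_iff.1 h
      exact ⟨0, by simp [this]⟩
    · rintro ⟨k, hk⟩
      simp only [Option.some.injEq] at hk
      subst hk
      exact Part.mem_some _
  | query =>
    refine ⟨fun σ n => σ[n]?, Primrec.list_getElem?, fun σ τ n m h hm => getElem?_ext h hm,
      fun A n m => ?_⟩
    constructor
    · intro h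
      have : m = (A n).toNat := Part.mem_some_iff.1 h
      exact ⟨n + 1, (getElem?_pre (fun i => (A i).toNat) n (n + 1) m).2 ⟨by omega, this.symm⟩⟩
    · rintro ⟨k, hk⟩
      have := ((getElem?_pre (fun i => (A i).toNat) n k m).1 hk).2
      subst this
      exact Part.mem_some _
  | @pair f h _ _ ihf ihh =>
    obtain ⟨F1, hp1, hm1, hc1⟩ := ihf
    obtain ⟨F2, hp2, hm2, hc2⟩ := ihh
    refine ⟨fun σ n => (F1 σ n).bind (fun a => (F2 σ n).map (fun b => Nat.pair a b)), ?_, ?_, ?_⟩
    · refine Primrec.option_bind hp1 ?_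
      refine Primrec.option_map (hp2.comp (Primrec.fst.comp Primrec.fst)
        (Primrec.snd.comp Primrec.fst)) ?_
      exact Primrec₂.natPair.comp (Primrec.snd.comp Primrec.fst) Primrec.snd
    · intro σ τ n m hst h
      simp only [Option.bind_eq_some_iff, Option.map_eq_some_iff] at h ⊢
      obtain ⟨a, ha, b, hb, rfl⟩ := h
      exact ⟨a, hm1 _ _ _ _ hst ha, b, hm2 _ _ _ _ hst hb, rfl⟩
    · intro A n m
      have hL : m ∈ (Nat.pair <$> f A n <*> h A n) ↔
          ∃ a ∈ f A n, ∃ b ∈ h A n, Nat.pair a b = m := by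
        simp [Seq.seq]
      rw [hL]
      constructor
      · rintro ⟨a, ha, b, hb, rfl⟩
        obtain ⟨k1, hk1⟩ := (hc1 A n a).1 ha
        obtain ⟨k2, hk2⟩ := (hc2 A n b).1 hb
        refine ⟨max k1 k2, ?_⟩
        simp only [Option.bind_eq_some_iff, Option.map_eq_some_iff]
        exact ⟨a, hm1 _ _ _ _ (pre_le _ (le_max_left _ _)) hk1, b,
          hm2 _ _ _ _ (pre_le _ (le_max_right _ _)) hk2, rfl⟩
      · rintro ⟨k, hk⟩
        simp only [Option.bind_eq_some_iff, Option.map_eq_some_iff] at hk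
        obtain ⟨a, ha, b, hb, rfl⟩ := hk
        exact ⟨a, (hc1 A n a).2 ⟨k, ha⟩, b, (hc2 A n b).2 ⟨k, hb⟩, rfl⟩
  | @comp f h _ _ ihf ihh =>
    obtain ⟨F1, hp1, hm1, hc1⟩ := ihf
    obtain ⟨F2, hp2, hm2, hc2⟩ := ihh
    refine ⟨fun σ n => (F2 σ n).bind (fun b => F1 σ b), ?_, ?_, ?_⟩
    · exact Primrec.option_bind hp2 (hp1.comp (Primrec.fst.comp Primrec.fst) Primrec.snd)
    · intro σ τ n m hst h
      simp only [Option.bind_eq_some_iff] at h ⊢
      obtain ⟨a, ha, hb⟩ := h
      exact ⟨a, hm2 _ _ _ _ hst ha, hm1 _ _ _ _ hst hb⟩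
    · intro A n m
      have hL : m ∈ (h A n >>= f A) ↔ ∃ a ∈ h A n, m ∈ f A a := Part.mem_bind_iff
      rw [hL]
      constructor
      · rintro ⟨a, ha, hb⟩
        obtain ⟨k1, hk1⟩ := (hc2 A n a).1 ha
        obtain ⟨k2, hk2⟩ := (hc1 A a m).1 hb
        refine ⟨max k1 k2, ?_⟩
        simp only [Option.bind_eq_some_iff]
        exact ⟨a, hm2 _ _ _ _ (pre_le _ (le_max_left _ _)) hk1,
          hm1 _ _ _ _ (pre_le _ (le_max_right _ _)) hk2⟩
      · rintro ⟨k, hk⟩
        simp only [Option.bind_eq_some_iff] at hk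
        obtain ⟨a, ha, hb⟩ := hk
        exact ⟨a, (hc2 A n a).2 ⟨k, ha⟩, (hc1 A a m).2 ⟨k, hb⟩⟩
  | @prec f h _ _ ihf ihh =>
    obtain ⟨F1, hp1, hm1, hc1⟩ := ihf
    obtain ⟨F2, hp2, hm2, hc2⟩ := ihh
    have hmon : ∀ σ τ a n m, σ <+: τ → prc F1 F2 σ a n = some m → prc F1 F2 τ a n = some m := by
      intro σ τ a n m hst
      induction n generalizing m with
      | zero => exact hm1 _ _ _ _ hst
      | succ n ih =>
        rw [prc_succ, prc_succ]
        intro hh
        simp only [Option.bind_eq_some_iff] at hh ⊢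
        obtain ⟨i, hi, hh⟩ := hh
        exact ⟨i, ih i hi, hm2 _ _ _ _ hst hh⟩
    refine ⟨fun σ p => prc F1 F2 σ p.unpair.1 p.unpair.2, ?_, ?_, ?_⟩
    · exact (primrec_prc hp1 hp2).comp (Primrec.pair Primrec.fst
        (Primrec.pair (Primrec.fst.comp (Primrec.unpair.comp Primrec.snd))
          (Primrec.snd.comp (Primrec.unpair.comp Primrec.snd))))
    · intro σ τ n m hst h
      exact hmon _ _ _ _ _ hst h
    · intro A p m
      have key : ∀ (a n m : ℕ), (m ∈ (Nat.rec (f A a) (fun y IH => do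
          let i ← IH
          h A (Nat.pair a (Nat.pair y i))) n : Part ℕ)) ↔
          ∃ k, prc F1 F2 (pre (fun i => (A i).toNat) k) a n = some m := by
        intro a n
        induction n with
        | zero => intro m; exact hc1 A a m
        | succ n ih =>
          intro m
          constructor
          · intro hh
            have hh' := Part.mem_bind_iff.1 hh
            obtain ⟨i, hi, hh⟩ := hh'
            obtain ⟨k1, hk1⟩ := (ih i).1 hi
            obtain ⟨k2, hk2⟩ := (hc2 A _ m).1 hh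
            refine ⟨max k1 k2, ?_⟩
            rw [prc_succ]
            simp only [Option.bind_eq_some_iff]
            exact ⟨i, hmon _ _ _ _ _ (pre_le _ (le_max_left _ _)) hk1,
              hm2 _ _ _ _ (pre_le _ (le_max_right _ _)) hk2⟩
          · rintro ⟨k, hk⟩
            rw [prc_succ] at hk
            simp only [Option.bind_eq_some_iff] at hk
            obtain ⟨i, hi, hh⟩ := hk
            exact Part.mem_bind_iff.2 ⟨i, (ih i).2 ⟨k, hi⟩, (hc2 A _ m).2 ⟨k, hh⟩⟩
      exact key p.unpair.1 p.unpair.2 m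
  | @rfind f _ ihf =>
    obtain ⟨F1, hp1, hm1, hc1⟩ := ihf
    refine ⟨srch F1, primrec_srch hp1, ?_, ?_⟩
    · intro σ τ a n hst h
      rw [srch_eq] at h ⊢
      refine ⟨lt_of_lt_of_le h.1 hst.length_le, hm1 _ _ _ _ hst h.2.1, ?_⟩
      intro j hj
      have hj' := h.2.2 j hj
      cases hv : F1 σ (Nat.pair a j) with
      | none => exact absurd hv hj'.2
      | some v =>
        rw [hv] at hj'
        rw [hm1 _ _ _ _ hst hv]
        exact hj'
    · intro A a n
      have hL : n ∈ (Nat.rfind fun n => (fun m => decide (m = 0)) <$> f A (Nat.pair a n)) ↔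
          0 ∈ f A (Nat.pair a n) ∧ ∀ j < n, ∃ v, v ≠ 0 ∧ v ∈ f A (Nat.pair a j) :=
        mem_rfind' (fun n => f A (Nat.pair a n)) n
      refine Iff.trans hL ?_
      constructor
      · rintro ⟨h1, h2⟩
        obtain ⟨k1, hk1⟩ := (hc1 A _ _).1 h1
        have h3 : ∀ j < n, ∃ k, ∃ v, v ≠ 0 ∧
            F1 (pre (fun i => (A i).toNat) k) (Nat.pair a j) = some v := by
          intro j hj
          obtain ⟨v, hv1, hv2⟩ := h2 j hj
          obtain ⟨k, hk⟩ := (hc1 A _ _).1 hv2
          exact ⟨k, v, hv1, hk⟩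
        obtain ⟨K, hK⟩ := exists_unif n
          (fun j k => ∃ v, v ≠ 0 ∧ F1 (pre (fun i => (A i).toNat) k) (Nat.pair a j) = some v)
          (fun j k k' hkk ⟨v, hv, hv'⟩ => ⟨v, hv, hm1 _ _ _ _ (pre_le _ hkk) hv'⟩) h3
        refine ⟨max (n + 1) (max k1 K), ?_⟩
        rw [srch_eq]
        refine ⟨by rw [length_pre]; omega, ?_, ?_⟩
        · exact hm1 _ _ _ _ (pre_le _ (by omega)) hk1
        · intro j hj
          obtain ⟨v, hv, hv'⟩ := hK j (List.mem_range.1 hj)
          have h4 := hm1 _ _ _ _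
            (pre_le _ (show K ≤ max (n + 1) (max k1 K) by omega)) hv'
          rw [h4]
          refine ⟨?_, by simp⟩
          simpa using hv
      · rintro ⟨k, hk⟩
        rw [srch_eq] at hk
        refine ⟨(hc1 A _ _).2 ⟨k, hk.2.1⟩, ?_⟩
        intro j hj
        have hj' := hk.2.2 j (List.mem_range.2 hj)
        cases hv : F1 (pre (fun i => (A i).toNat) k) (Nat.pair a j) with
        | none => exact absurd hv hj'.2
        | some v =>
          refine ⟨v, ?_, (hc1 A _ _).2 ⟨k, hv⟩⟩
          rintro rfl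
          exact hj'.1 hv

theorem nf_unif (F : (ℕ → Bool) → ℕ →. ℕ) (hF : OracleRec F) :
    ∃ G : List Bool → ℕ → Option ℕ, Primrec₂ G ∧ MonB G ∧
      ∀ (A : ℕ → Bool) (n m : ℕ), m ∈ F A n ↔ ∃ k, G (preB A k) n = some m := by
  obtain ⟨F', hp, hm, hc⟩ := nf_unif0 F hF
  refine ⟨fun σ n => F' (σ.map Bool.toNat) n, ?_, ?_, ?_⟩
  · refine hp.comp ?_ Primrec.snd
    exact Primrec.list_map Primrec.fst ((Primrec.dom_bool Bool.toNat).comp Primrec.snd)
  · intro σ τ a b hst h
    obtain ⟨ρ, rfl⟩ := hst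
    exact hm _ _ _ _ ⟨ρ.map Bool.toNat, by simp⟩ h
  · intro A n m
    rw [hc A n m]
    refine exists_congr fun k => ?_
    have : (preB A k).map Bool.toNat = OracleNF.pre (fun i => (A i).toNat) k := by
      simp [preB, OracleNF.pre, Function.comp_def]
    show _ ↔ F' (List.map Bool.toNat (preB A k)) n = some m
    rw [this]

end Pool.Agent.Helper760.GW.J1457
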