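import Mathlib
import Pool.Agent.Helper760.OracleNF
import Pool.Agent.Helper760.GW.Defs2

set_option autoImplicit false

namespace Pool.Agent.Helper760.GW

open Encodable MeasureTheory

theorem OracleRec.of_eq' {f g : (ℕ → Bool) → ℕ →. ℕ} (hf : OracleRec f)
    (h : ∀ A n, f A n = g A n) : OracleRec g := by
  have : f = g := funext fun A => funext fun n => h A n
  exact this ▸ hf

theorem orac_nprim {h : ℕ → ℕ} (hh : Nat.Primrec h) :
    OracleRec (fun _ n => Part.some (h n)) := by
  induction hh with
  | zero => exact OracleRec.zero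
  | succ => exact OracleRec.succ
  | left => exact OracleRec.left
  | right => exact OracleRec.right
  | pair _ _ pf pg =>
    refine (OracleRec.pair pf pg).of_eq' fun A n => ?_
    simp [Seq.seq]
  | comp _ _ pf pg =>
    refine (OracleRec.comp pf pg).of_eq' fun A n => ?_
    exact Part.bind_some _ _
  | @prec f g _ _ pf pg =>
    refine (OracleRec.prec pf pg).of_eq' fun A n => ?_
    show (Nat.rec (Part.some (f n.unpair.1)) (fun y IH => IH >>= fun i =>
      Part.some (g (Nat.pair n.unpair.1 (Nat.pair y i)))) n.unpair.2 : Part ℕ) =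
      Part.some (Nat.rec (f n.unpair.1) (fun y IH => g (Nat.pair n.unpair.1 (Nat.pair y IH)))
        n.unpair.2)
    generalize n.unpair.2 = k
    induction k with
    | zero => rfl
    | succ k ih =>
      refine Eq.trans (congrArg (fun z : Part ℕ => z >>= fun i =>
        Part.some (g (Nat.pair n.unpair.1 (Nat.pair k i)))) ih) ?_
      exact Part.bind_some _ _

theorem orac_primrec {h : ℕ → ℕ} (hh : Primrec h) : OracleRec (fun _ n => Part.some (h n)) :=
  orac_nprim (Primrec.nat_iff.1 hh)

theorem orac_comp {f h : (ℕ → Bool) → ℕ → ℕ} (hf : OracleRec (fun A n => Part.some (f A n)))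
    (hh : OracleRec (fun A n => Part.some (h A n))) :
    OracleRec (fun A n => Part.some (f A (h A n))) := by
  refine (OracleRec.comp hf hh).of_eq' ?_
  intro A n
  exact Part.bind_some _ _

theorem orac_pair {f h : (ℕ → Bool) → ℕ → ℕ} (hf : OracleRec (fun A n => Part.some (f A n)))
    (hh : OracleRec (fun A n => Part.some (h A n))) :
    OracleRec (fun A n => Part.some (Nat.pair (f A n) (h A n))) := by
  refine (OracleRec.pair hf hh).of_eq' ?_
  intro A n
  simp [Seq.seq]

/-- one step of the construction of the known part of the oracle -/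
def stpB (z : ℕ) : ℕ :=
  encode (((decode (α := List Bool) z.unpair.2).getD []) ++ [decide (z.unpair.1 = 1)])

theorem primrec_stpB : Primrec stpB := by
  unfold stpB
  refine Primrec.encode.comp (Primrec.list_concat.comp ?_ ?_)
  · exact Primrec.option_getD.comp (Primrec.decode.comp (Primrec.snd.comp Primrec.unpair))
      (Primrec.const [])
  · exact (Primrec.eq.comp (Primrec.fst.comp Primrec.unpair) (Primrec.const 1)).decide

theorem preB_succ (A : ℕ → Bool) (k : ℕ) : preB A (k + 1) = preB A k ++ [A k] := by
  simp [preB, List.range_succ]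

theorem orac_pre : OracleRec (fun A k => Part.some (encode (preB A k))) := by
  have h1 : OracleRec (fun _ _ => Part.some (encode ([] : List Bool))) :=
    orac_primrec (h := fun _ => encode ([] : List Bool)) (Primrec.const (encode ([] : List Bool)))
  have h2 : OracleRec
      (fun A z => Part.some (stpB (Nat.pair (A z.unpair.2.unpair.1).toNat
        z.unpair.2.unpair.2))) := by
    have e1 : Primrec (fun z : ℕ => z.unpair.2.unpair.1) :=
      Primrec.fst.comp (Primrec.unpair.comp (Primrec.snd.comp Primrec.unpair))
    have e2 : Primrec (fun z : ℕ => z.unpair.2.unpair.2) :=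
      Primrec.snd.comp (Primrec.unpair.comp (Primrec.snd.comp Primrec.unpair))
    have e3 := orac_comp (f := fun A n => (A n).toNat) (h := fun _ z => z.unpair.2.unpair.1)
      OracleRec.query (orac_primrec e1)
    have e4 := orac_pair (f := fun A z => (A z.unpair.2.unpair.1).toNat)
      (h := fun _ z => z.unpair.2.unpair.2) e3 (orac_primrec e2)
    exact orac_comp (f := fun _ z => stpB z)
      (h := fun A z => Nat.pair (A z.unpair.2.unpair.1).toNat z.unpair.2.unpair.2)
      (orac_primrec primrec_stpB) e4
  have h3 := OracleRec.prec h1 h2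
  have h4 : OracleRec (fun _ n => Part.some (Nat.pair 0 n)) :=
    orac_primrec (h := fun n => Nat.pair 0 n)
      (Primrec₂.natPair.comp (Primrec.const 0) Primrec.id)
  have key : ∀ (A : ℕ → Bool) (k : ℕ), (Nat.rec (Part.some (encode ([] : List Bool)))
      (fun y IH => IH >>= fun i => Part.some (stpB (Nat.pair
        (A (Nat.pair 0 (Nat.pair y i)).unpair.2.unpair.1).toNat
        (Nat.pair 0 (Nat.pair y i)).unpair.2.unpair.2))) k : Part ℕ) =
        Part.some (encode (preB A k)) := by
    intro A k
    induction k with
    | zero => rfl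
    | succ k ih =>
      refine Eq.trans (congrArg (fun z : Part ℕ => z >>= fun i =>
        Part.some (stpB (Nat.pair (A (Nat.pair 0 (Nat.pair k i)).unpair.2.unpair.1).toNat
          (Nat.pair 0 (Nat.pair k i)).unpair.2.unpair.2))) ih) ?_
      refine (Part.bind_some _ _).trans ?_
      have hb : decide ((A k).toNat = 1) = A k := by cases A k <;> rfl
      simp only [Nat.unpair_pair, stpB, encodek, Option.getD_some, preB_succ, hb]
  refine (OracleRec.comp h3 h4).of_eq' ?_
  intro A k
  refine (Part.bind_some _ _).trans ?_
  have hu : Nat.unpair (Nat.pair 0 k) = (0, k) := Nat.unpair_pair 0 k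
  rw [hu]
  exact key A k

theorem oracleRec_of_stepped (G : List Bool → ℕ → Option ℕ) (hG : Primrec₂ G) :
    OracleRec (fun A n => Nat.rfindOpt (fun k => G (preB A k) n)) := by
  -- the evaluation on numbers
  let h : ℕ → ℕ := fun z => encode ((decode (α := List Bool) z.unpair.1).bind fun s =>
    G s z.unpair.2)
  have hh : Primrec h := by
    refine Primrec.encode.comp ?_
    refine Primrec.option_bind (Primrec.decode.comp (Primrec.fst.comp Primrec.unpair)) ?_
    exact hG.comp Primrec.snd (Primrec.snd.comp (Primrec.unpair.comp Primrec.fst))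
  let H : (ℕ → Bool) → ℕ → ℕ := fun A z => h (Nat.pair (encode (preB A z.unpair.2)) z.unpair.1)
  have hH : OracleRec (fun A z => Part.some (H A z)) := by
    have e1 : Primrec (fun z : ℕ => z.unpair.2) := Primrec.snd.comp Primrec.unpair
    have e2 : Primrec (fun z : ℕ => z.unpair.1) := Primrec.fst.comp Primrec.unpair
    have e3 := orac_comp (f := fun A k => encode (preB A k)) (h := fun _ z => z.unpair.2)
      orac_pre (orac_primrec e1)
    have e4 := orac_pair (f := fun A z => encode (preB A z.unpair.2))
      (h := fun _ z => z.unpair.1) e3 (orac_primrec e2)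
    exact orac_comp (f := fun _ z => h z)
      (h := fun A z => Nat.pair (encode (preB A z.unpair.2)) z.unpair.1)
      (orac_primrec hh) e4
  have hH1 : OracleRec (fun A z => Part.some (1 - H A z)) := by
    have e1 : Primrec (fun z : ℕ => 1 - z) := Primrec.nat_sub.comp (Primrec.const 1) Primrec.id
    exact orac_comp (f := fun _ z => 1 - z) (h := H) (orac_primrec e1) hH
  have hR := OracleRec.rfind hH1
  have hid : OracleRec (fun _ n => Part.some n) := orac_primrec Primrec.id
  have hP := OracleRec.pair hid hR
  have hE : OracleRec (fun A z => Part.some (H A z - 1)) := by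
    have e1 : Primrec (fun z : ℕ => z - 1) := Primrec.nat_sub.comp Primrec.id (Primrec.const 1)
    exact orac_comp (f := fun _ z => z - 1) (h := H) (orac_primrec e1) hH
  have hC := OracleRec.comp hE hP
  refine hC.of_eq' ?_
  intro A n
  apply Part.ext
  intro m
  have hHv : ∀ k, H A (Nat.pair n k) = encode (G (preB A k) n) := by
    intro k
    simp only [H, h, Nat.unpair_pair, encodek, Option.bind_some]
  have hL : m ∈ ((Nat.pair <$> (Part.some n) <*> (Nat.rfind fun k =>
      (fun m => decide (m = 0)) <$> (Part.some (1 - H A (Nat.pair n k))))) >>=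
        fun z => Part.some (H A z - 1)) ↔
      ∃ k, k ∈ (Nat.rfind fun k => (fun m => decide (m = 0)) <$>
        (Part.some (1 - H A (Nat.pair n k)))) ∧ m = H A (Nat.pair n k) - 1 := by
    simp [Seq.seq]
  refine Iff.trans hL ?_
  have hS : ∀ k, k ∈ (Nat.rfind fun k => (fun m => decide (m = 0)) <$>
      (Part.some (1 - H A (Nat.pair n k)))) ↔
      H A (Nat.pair n k) ≠ 0 ∧ ∀ j < k, H A (Nat.pair n j) = 0 := by
    intro k
    refine (OracleNF.mem_rfind' (fun k => Part.some (1 - H A (Nat.pair n k))) k).trans ?_
    simp only [Part.mem_some_iff]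
    constructor
    · rintro ⟨h1, h2⟩
      refine ⟨by omega, fun j hj => ?_⟩
      obtain ⟨v, hv, hv'⟩ := h2 j hj
      omega
    · rintro ⟨h1, h2⟩
      refine ⟨by omega, fun j hj => ⟨1, by omega, ?_⟩⟩
      rw [h2 j hj]
  refine (exists_congr (fun k => and_congr_left' (hS k))).trans ?_
  simp only [hHv]
  have hO : ∀ b, b ∈ Nat.rfindOpt (fun k => G (preB A k) n) ↔
      ∃ k, G (preB A k) n = some b ∧ ∀ j < k, G (preB A j) n = none := by
    intro b
    unfold Nat.rfindOpt
    rw [Part.mem_bind_iff]
    constructor
    · rintro ⟨k, hk, hb⟩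
      have hk' := (Nat.mem_rfind).1 hk
      refine ⟨k, by simpa using hb, ?_⟩
      intro j hj
      have := hk'.2 hj
      simpa using this
    · rintro ⟨k, hk, hj⟩
      refine ⟨k, ?_, by simp [hk]⟩
      refine (Nat.mem_rfind).2 ⟨?_, ?_⟩
      · simp [hk]
      · intro j hj'
        simp [hj j hj']
  rw [hO]
  constructor
  · rintro ⟨k, ⟨h1, h2⟩, rfl⟩
    cases hk : G (preB A k) n with
    | none => rw [hk] at h1; exact absurd rfl h1
    | some b =>
      refine ⟨k, ?_, ?_⟩
      · rw [hk]; simp
      · intro j hj
        have := h2 j hj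
        cases hjj : G (preB A j) n with
        | none => rfl
        | some b' => rw [hjj] at this; simp at this
  · rintro ⟨k, hk, h2⟩
    refine ⟨k, ⟨by rw [hk]; simp, fun j hj => by rw [h2 j hj]; simp⟩, by rw [hk]; simp⟩

end Pool.Agent.Helper760.GW
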