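import Mathlib
import Pool.Agent.Helper760.Profile
import Pool.Agent.Helper760.GW.Defs2

set_option autoImplicit false

namespace Pool.Agent.Helper760.GW.J1460

open Encodable MeasureTheory
open Pool.Agent.Helper760.Kolm

theorem preB_length (A : ℕ → Bool) (k : ℕ) : (preB A k).length = k := by
  simp [preB]

theorem preB_succ (A : ℕ → Bool) (k : ℕ) : preB A (k + 1) = preB A k ++ [A k] := by
  simp [preB, List.range_succ]

theorem coin_pre_le (k : ℕ) (ρ : List Bool) : coin {A | preB A k = ρ} ≤ ((2 : ENNReal) ^ k)⁻¹ := by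
  have h1 : {A | preB A k = ρ} ⊆
      Set.pi (Finset.range k) (fun i => ({ρ.getD i false} : Set Bool)) := by
    intro A hA i hi
    have hi' : i < k := by simpa using hi
    have hA' : preB A k = ρ := hA
    rw [Set.mem_singleton_iff, ← hA']
    simp [preB, List.getD_eq_getElem?_getD, hi']
  refine (measure_mono h1).trans ?_
  rw [coin, Measure.infinitePi_pi _ (fun i _ => MeasurableSet.of_discrete)]
  have h2 : ∀ i ∈ Finset.range k, (PMF.uniformOfFintype Bool).toMeasure
      ({ρ.getD i false} : Set Bool) = (2 : ENNReal)⁻¹ := by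
    intro i _
    rw [PMF.toMeasure_apply_singleton _ _ (MeasurableSet.singleton _),
      PMF.uniformOfFintype_apply]
    simp
  rw [Finset.prod_congr rfl h2, Finset.prod_const, Finset.card_range, ENNReal.inv_pow]

open scoped Classical in
theorem coin_count (P : List Bool → Prop) (hP : ∀ ρ b, P ρ → P (ρ ++ [b])) (κ : ℕ)
    (h : ((2 : ENNReal) ^ κ)⁻¹ < coin {A | ∃ k, P (preB A k)}) :
    ∃ k0, ∀ k, k0 ≤ k → 2 ^ k ≤ 2 ^ κ * ((allLen k).filter (fun ρ => P ρ)).length := by
  have hmono : Monotone (fun k => {A : ℕ → Bool | P (preB A k)}) := by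
    refine monotone_nat_of_le_succ fun k A hA => ?_
    show P (preB A (k + 1))
    rw [preB_succ]
    exact hP _ _ hA
  have hU : {A | ∃ k, P (preB A k)} = ⋃ k, {A : ℕ → Bool | P (preB A k)} := by
    ext A
    simp
  rw [hU, hmono.measure_iUnion, lt_iSup_iff] at h
  obtain ⟨k0, hk0⟩ := h
  refine ⟨k0, fun k hk => ?_⟩
  have h1 : ((2 : ENNReal) ^ κ)⁻¹ < coin {A : ℕ → Bool | P (preB A k)} :=
    hk0.trans_le (measure_mono (hmono hk))
  have h2 : coin {A : ℕ → Bool | P (preB A k)} ≤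
      (((allLen k).filter (fun ρ => P ρ)).length : ENNReal) * ((2 : ENNReal) ^ k)⁻¹ := by
    have h3 : {A : ℕ → Bool | P (preB A k)} ⊆
        ⋃ ρ ∈ ((allLen k).filter (fun ρ => P ρ)).toFinset, {A : ℕ → Bool | preB A k = ρ} := by
      intro A hA
      rw [Set.mem_iUnion₂]
      refine ⟨preB A k, ?_, rfl⟩
      rw [List.mem_toFinset, List.mem_filter, mem_allLen]
      exact ⟨preB_length A k, by simpa using hA⟩
    refine (measure_mono h3).trans ((measure_biUnion_finset_le _ _).trans ?_)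
    refine (Finset.sum_le_sum fun ρ _ => coin_pre_le k ρ).trans ?_
    rw [Finset.sum_const, nsmul_eq_mul]
    gcongr
    exact List.toFinset_card_le _
  have h3 := (h1.trans_le h2).le
  have h4 : ∀ m : ℕ, (2 : ENNReal) ^ m ≠ 0 := fun m => pow_ne_zero _ (by norm_num)
  have h5 : ∀ m : ℕ, (2 : ENNReal) ^ m ≠ ⊤ := fun m => ENNReal.pow_ne_top (by norm_num)
  have h6 : (2 : ENNReal) ^ k ≤
      (2 : ENNReal) ^ κ * (((allLen k).filter (fun ρ => P ρ)).length : ENNReal) := by
    calc (2 : ENNReal) ^ k = (2 : ENNReal) ^ κ * ((2 : ENNReal) ^ κ)⁻¹ * (2 : ENNReal) ^ k := by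
          rw [ENNReal.mul_inv_cancel (h4 κ) (h5 κ), one_mul]
      _ ≤ (2 : ENNReal) ^ κ * ((((allLen k).filter (fun ρ => P ρ)).length : ENNReal) *
          ((2 : ENNReal) ^ k)⁻¹) * (2 : ENNReal) ^ k := by gcongr
      _ = (2 : ENNReal) ^ κ * (((allLen k).filter (fun ρ => P ρ)).length : ENNReal) *
          (((2 : ENNReal) ^ k)⁻¹ * (2 : ENNReal) ^ k) := by ring
      _ = _ := by rw [ENNReal.inv_mul_cancel (h4 k) (h5 k), mul_one]
  exact_mod_cast h6

end Pool.Agent.Helper760.GW.J1460
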