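import Mathlib
import Pool.Agent.Helper760.GW.J1457
import Pool.Agent.Helper760.GW.J1458
import Pool.Agent.Helper760.GW.J1460
import Pool.Agent.Helper760.Cov.J1461
import Pool.Agent.Helper760.GW.Defs2

set_option autoImplicit false

namespace Pool.Agent.Helper760.GW

alias nf_unif := J1457.nf_unif
alias coin_count := J1460.coin_count
alias nG_le := Pool.Agent.Helper760.Cov.J1461.nG_le

end Pool.Agent.Helper760.GW
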