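import Mathlib
import Pool.Agent.Helper760.Profile
import Pool.Agent.Helper760.GW.Base1
import Pool.Agent.Helper760.Cov.Base2

set_option autoImplicit false

namespace Pool.Agent.Helper760.GW.J1459

open Encodable MeasureTheory
open Pool.Agent.Helper760.Kolm
open Pool.Agent.Helper760.Cov (SizeN nG)

theorem od_rfindOpt_map {σ τ : Type*} (f : ℕ → Option σ) (e : σ → τ) :
    Nat.rfindOpt (fun k => (f k).map e) = (Nat.rfindOpt f).map e := by
  unfold Nat.rfindOpt
  rw [Part.map_bind]
  simp only [Option.isSome_map]
  congr 1
  funext n
  cases f n <;> simp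

theorem oracleDec_stepped (V : (ℕ → Bool) → List Bool → List Bool →. List Bool)
    (hV : OracleDec V) :
    ∃ G : List Bool → List Bool × List Bool → Option (List Bool), Primrec₂ G ∧ MonB G ∧
      ∀ A p y s, s ∈ V A p y ↔ ∃ k, G (preB A k) (p, y) = some s := by
  obtain ⟨F, hF, hV⟩ := hV
  obtain ⟨G0, hG0, hmon, hspec⟩ := nf_unif F hF
  refine ⟨fun σ z => (G0 σ (encode z)).bind (fun m => (decode (α := List Bool) m).bind
    (fun s => if encode s = m then some s else none)), ?_, ?_, ?_⟩
  · refine Primrec.option_bind (hG0.comp Primrec.fst (Primrec.encode.comp Primrec.snd)) ?_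
    refine Primrec.option_bind (Primrec.decode.comp Primrec.snd) ?_
    refine Primrec.ite ?_ (Primrec.option_some.comp Primrec.snd) (Primrec.const none)
    exact Primrec.eq.comp (Primrec.encode.comp Primrec.snd) (Primrec.snd.comp Primrec.fst)
  · intro σ τ z b hστ h
    simp only [Option.bind_eq_some_iff] at h ⊢
    obtain ⟨m, hm, h⟩ := h
    exact ⟨m, hmon σ τ _ m hστ hm, h⟩
  · intro A p y s
    rw [hV]
    have he : Nat.pair (encode p) (encode y) = encode ((p, y) : List Bool × List Bool) := by simp
    rw [he, hspec]
    constructor
    · rintro ⟨k, hk⟩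
      refine ⟨k, ?_⟩
      simp only [hk, Option.bind_some, encodek, if_true]
    · rintro ⟨k, hk⟩
      refine ⟨k, ?_⟩
      simp only [Option.bind_eq_some_iff] at hk
      obtain ⟨m, hm, s', hs', h⟩ := hk
      split_ifs at h with h1
      cases h
      rw [hm, h1]

/-- one attempt of the universal oracle machine -/
def odAtt (σ : List Bool) (z : List Bool × List Bool) (j : ℕ) : Option (List Bool) :=
  (Nat.Partrec.Code.evaln σ.length (Denumerable.ofNat Nat.Partrec.Code (ones z.1))
    (encode (σ.take j, (afterOnes z.1, z.2)))).bind fun r =>
      (decode (α := Option (List Bool)) r).bind id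

/-- the stepped universal oracle machine -/
def odU (σ : List Bool) (z : List Bool × List Bool) : Option (List Bool) :=
  ((List.range (σ.length + 1)).filterMap (odAtt σ z)).head?

theorem primrec_odAtt : Primrec (fun w : (List Bool × (List Bool × List Bool)) × ℕ =>
    odAtt w.1.1 w.1.2 w.2) := by
  have h1 : Primrec (fun w : (List Bool × (List Bool × List Bool)) × ℕ =>
      Nat.Partrec.Code.evaln w.1.1.length (Denumerable.ofNat Nat.Partrec.Code (ones w.1.2.1))
    (encode (w.1.1.take w.2, (afterOnes w.1.2.1, w.1.2.2)))) := by
    refine Nat.Partrec.Code.primrec_evaln.comp (Primrec.pair (Primrec.pair ?_ ?_) ?_)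
    · exact Primrec.list_length.comp (Primrec.fst.comp Primrec.fst)
    · exact (Primrec.ofNat Nat.Partrec.Code).comp
        (primrec_ones.comp (Primrec.fst.comp (Primrec.snd.comp Primrec.fst)))
    · refine Primrec.encode.comp (Primrec.pair ?_ (Primrec.pair ?_ ?_))
      · exact Primrec.list_take.comp Primrec.snd (Primrec.fst.comp Primrec.fst)
      · exact primrec_afterOnes.comp (Primrec.fst.comp (Primrec.snd.comp Primrec.fst))
      · exact Primrec.snd.comp (Primrec.snd.comp Primrec.fst)
  refine Primrec.option_bind h1 ?_
  exact Primrec.option_bind (Primrec.decode.comp Primrec.snd) Primrec.snd.to₂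

theorem primrec_odU : Primrec₂ odU := by
  have h1 : Primrec (fun w : List Bool × (List Bool × List Bool) =>
      (List.range (w.1.length + 1)).filterMap (odAtt w.1 w.2)) := by
    refine Primrec.listFilterMap ?_ primrec_odAtt.to₂
    exact Primrec.list_range.comp (Primrec.succ.comp (Primrec.list_length.comp Primrec.fst))
  exact Primrec.list_head?.comp h1

theorem od_preB_length (A : ℕ → Bool) (k : ℕ) : (preB A k).length = k := by
  simp [preB]

theorem od_preB_take (A : ℕ → Bool) (k j : ℕ) : (preB A k).take j = preB A (min j k) := by
  unfold preB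
  rw [← List.map_take, List.take_range]

theorem exists_optimalOracle :
    ∃ V : (ℕ → Bool) → List Bool → List Bool →. List Bool, OptimalOracle V := by
  refine ⟨fun A q y => Nat.rfindOpt (fun k => odU (preB A k) (q, y)), ?_, ?_⟩
  · refine ⟨_, oracleRec_of_stepped (fun σ n => (decode (α := List Bool × List Bool) n).bind
      (fun z => (odU σ z).map encode)) ?_, ?_⟩
    · refine Primrec.option_bind (Primrec.decode.comp Primrec.snd) ?_
      exact Primrec.option_map (primrec_odU.comp (Primrec.fst.comp Primrec.fst) Primrec.snd)
        (Primrec.encode.comp Primrec.snd).to₂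
    · intro A p y s
      have he : Nat.pair (encode p) (encode y) = encode ((p, y) : List Bool × List Bool) := by
        simp
      rw [he]
      simp only [encodek, Option.bind_some]
      rw [od_rfindOpt_map (fun k => odU (preB A k) (p, y)) encode, Part.mem_map_iff]
      constructor
      · intro h; exact ⟨s, h, rfl⟩
      · rintro ⟨s', h, he'⟩
        rw [← encode_injective he']
        exact h
  · intro W hW
    obtain ⟨Gw, hGw, hmon, hspec⟩ := oracleDec_stepped W hW
    have hcomp : Computable (fun w : List Bool × (List Bool × List Bool) => Gw w.1 w.2) :=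
      (hGw.comp Primrec.fst Primrec.snd).to_comp
    obtain ⟨cd, hcd⟩ := Nat.Partrec.Code.exists_code.1 hcomp
    have hev : ∀ w : List Bool × (List Bool × List Bool),
        cd.eval (encode w) = Part.some (encode (Gw w.1 w.2)) := by
      intro w
      rw [hcd]
      simp
    refine ⟨encode cd + 1, ?_⟩
    intro A p y s hs
    refine ⟨List.replicate (encode cd) true ++ false :: p, ?_, ?_⟩
    swap
    · simp only [List.length_append, List.length_replicate, List.length_cons]
      omega
    have hsound : ∀ k s', odU (preB A k) (List.replicate (encode cd) true ++ false :: p, y)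
        = some s' → s' = s := by
      intro k s' h
      unfold odU at h
      have hmem := List.mem_of_mem_head? h
      rw [List.mem_filterMap] at hmem
      obtain ⟨j, -, hj⟩ := hmem
      unfold odAtt at hj
      simp only [ones_replicate, afterOnes_replicate, Denumerable.ofNat_encode,
        Option.bind_eq_some_iff] at hj
      obtain ⟨r, hr, o, ho, ho'⟩ := hj
      have hr' := Nat.Partrec.Code.evaln_sound hr
      rw [hev, Part.mem_some_iff] at hr'
      rw [hr', encodek] at ho
      have h2 : Gw ((preB A k).take j) (p, y) = some s' := by
        have := Option.some.inj ho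
        simp only [id] at ho'
        rw [← ho']
        exact this
      rw [od_preB_take] at h2
      exact Part.mem_unique ((hspec A p y s').2 ⟨_, h2⟩) hs
    obtain ⟨j, hj⟩ := (hspec A p y s).1 hs
    have hm : encode (some s) ∈ cd.eval (encode (preB A j, (p, y))) := by
      rw [hev, Part.mem_some_iff]
      simp only [hj]
    obtain ⟨t, ht⟩ := Nat.Partrec.Code.evaln_complete.1 hm
    have hatt : odAtt (preB A (max j t)) (List.replicate (encode cd) true ++ false :: p, y) j
        = some s := by
      unfold odAtt
      simp only [ones_replicate, afterOnes_replicate, Denumerable.ofNat_encode,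
        od_preB_take, od_preB_length]
      rw [min_eq_left (le_max_left j t)]
      have ht' := Nat.Partrec.Code.evaln_mono (le_max_right j t) ht
      rw [Option.mem_def] at ht'
      rw [ht', Option.bind_some, encodek]
      rfl
    have hne : ∃ s', odU (preB A (max j t))
        (List.replicate (encode cd) true ++ false :: p, y) = some s' := by
      have hmem : s ∈ (List.range ((preB A (max j t)).length + 1)).filterMap
          (odAtt (preB A (max j t)) (List.replicate (encode cd) true ++ false :: p, y)) := by
        rw [List.mem_filterMap]
        refine ⟨j, ?_, hatt⟩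
        rw [List.mem_range, od_preB_length]
        have := le_max_left j t
        omega
      unfold odU
      obtain ⟨a, l, hal⟩ := List.exists_cons_of_ne_nil (List.ne_nil_of_mem hmem)
      exact ⟨a, by rw [hal]; rfl⟩
    obtain ⟨s', hs'⟩ := hne
    have hdom : (Nat.rfindOpt (fun k => odU (preB A k)
        (List.replicate (encode cd) true ++ false :: p, y))).Dom :=
      Nat.rfindOpt_dom.2 ⟨_, s', hs'⟩
    have hget := Part.get_mem hdom
    obtain ⟨k, hk⟩ := Nat.rfindOpt_spec hget
    have heq := hsound k _ hk
    rw [heq] at hget
    exact hget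

end Pool.Agent.Helper760.GW.J1459
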