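import Mathlib
import Pool.Agent.Helper760.Profile
import Pool.Agent.Helper760.GW.Defs2
import Pool.Agent.Helper760.Cov.Base2

set_option autoImplicit false

namespace Pool.Agent.Helper760.GW.J1462

open Encodable MeasureTheory
open Pool.Agent.Helper760.Kolm
open Pool.Agent.Helper760.Cov (SizeN nG)

theorem mem_addNew (h L : List ℕ) (e : ℕ) (he : e ∈ h ∨ e ∈ L) :
    e ∈ Pool.Agent.Helper760.Cov.addNew h L := by
  unfold Pool.Agent.Helper760.Cov.addNew
  induction L generalizing h with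
  | nil =>
    rcases he with he | he
    · exact he
    · simp at he
  | cons x L ih =>
    rw [List.foldl_cons]
    apply ih
    rcases he with he | he
    · left
      split_ifs
      · exact he
      · exact List.mem_cons_of_mem _ he
    · rcases List.mem_cons.1 he with rfl | he
      · left
        split_ifs with hx
        · exact hx
        · exact List.mem_cons_self
      · right; exact he

theorem cl_mono {α : Type*} (cl : α → ℕ → List (ℕ × ℕ)) (p : α) (h : ∀ t, cl p t ⊆ cl p (t + 1))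
    {t t' : ℕ} (htt : t ≤ t') : cl p t ⊆ cl p t' := by
  induction t', htt using Nat.le_induction with
  | base => exact List.Subset.refl _
  | succ n _ ih => exact List.Subset.trans ih (h n)

/-- common stage of a finite set -/
theorem cl_stage {α β : Type*} (cl : α → ℕ → List (ℕ × ℕ)) (p : α) (h : ∀ t, cl p t ⊆ cl p (t + 1))
    (S : Finset β) (P : β → ℕ × ℕ → Prop) (hS : ∀ b ∈ S, ∃ t, ∃ q ∈ cl p t, P b q) :
    ∃ T, ∀ b ∈ S, ∃ q ∈ cl p T, P b q := by
  choose! f hf using hS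
  refine ⟨S.sup f, fun b hb => ?_⟩
  obtain ⟨q, hq, hP⟩ := hf b hb
  exact ⟨q, cl_mono cl p h (Finset.le_sup hb) hq, hP⟩

/-- enumeration of the ids -/
def enI {α : Type*} (F : ℕ → α × ℕ → Option (List (ℕ × ℕ))) (x : α × Unit) (u : ℕ) : Option ℕ :=
  (decode (α := ℕ × ℕ × ℕ) u).bind fun z =>
    (F z.1 (x.1, z.2.1)).bind fun L => (L[z.2.2]?).map Prod.fst

theorem primrec_enI {α : Type*} [Primcodable α] {F : ℕ → α × ℕ → Option (List (ℕ × ℕ))}
    (hF : Primrec₂ F) : Primrec₂ (enI F) := by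
  unfold enI
  refine Primrec.option_bind (Primrec.decode.comp Primrec.snd) ?_
  refine Primrec.option_bind ?_ ?_
  · exact hF.comp (Primrec.fst.comp Primrec.snd)
      (Primrec.pair (Primrec.fst.comp (Primrec.fst.comp Primrec.fst))
        (Primrec.fst.comp (Primrec.snd.comp Primrec.snd)))
  · refine Primrec.option_map ?_ (Primrec.fst.comp Primrec.snd).to₂
    exact Primrec.list_getElem?.comp Primrec.snd
      (Primrec.snd.comp (Primrec.snd.comp (Primrec.snd.comp Primrec.fst)))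

/-- enumeration of the elements -/
def enJ {α : Type*} (F : ℕ → α × ℕ → Option (List (ℕ × ℕ))) (d : ℕ) (x : α × ℕ) (u : ℕ) : Option ℕ :=
  (decode (α := ℕ × ℕ × ℕ) u).bind fun z =>
    (F z.1 (x.1, z.2.1)).bind fun L => if (x.2, 2 * z.2.2 + d) ∈ L then some z.2.2 else none

theorem primrec_enJ {α : Type*} [Primcodable α] {F : ℕ → α × ℕ → Option (List (ℕ × ℕ))}
    (hF : Primrec₂ F) (d : ℕ) : Primrec₂ (enJ F d) := by
  unfold enJ
  refine Primrec.option_bind (Primrec.decode.comp Primrec.snd) ?_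
  refine Primrec.option_bind ?_ ?_
  · exact hF.comp (Primrec.fst.comp Primrec.snd)
      (Primrec.pair (Primrec.fst.comp (Primrec.fst.comp Primrec.fst))
        (Primrec.fst.comp (Primrec.snd.comp Primrec.snd)))
  · have hj : Primrec (fun y : (((α × ℕ) × ℕ) × (ℕ × ℕ × ℕ)) × List (ℕ × ℕ) => y.1.2.2.2) :=
      Primrec.snd.comp (Primrec.snd.comp (Primrec.snd.comp Primrec.fst))
    have hi : Primrec (fun y : (((α × ℕ) × ℕ) × (ℕ × ℕ × ℕ)) × List (ℕ × ℕ) => y.1.1.1.2) :=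
      Primrec.snd.comp (Primrec.fst.comp (Primrec.fst.comp Primrec.fst))
    have he : Primrec (fun y : (((α × ℕ) × ℕ) × (ℕ × ℕ × ℕ)) × List (ℕ × ℕ) => 2 * y.1.2.2.2 + d) :=
      Primrec.nat_add.comp (Primrec.nat_mul.comp (Primrec.const 2) hj) (Primrec.const d)
    exact Primrec.ite (primrec_mem.comp (Primrec.pair hi he) Primrec.snd)
      (Primrec.option_some.comp hj) (Primrec.const none)

theorem mem_enI {α : Type*} (cl : α → ℕ → List (ℕ × ℕ)) (F : ℕ → α × ℕ → Option (List (ℕ × ℕ)))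
    (hF : ∀ p t L, L = cl p t ↔ ∃ s, F s (p, t) = some L) (p : α) (i : ℕ) :
    (∃ u, enI F (p, ()) u = some i) ↔ ∃ t, ∃ q ∈ cl p t, q.1 = i := by
  constructor
  · rintro ⟨u, hu⟩
    unfold enI at hu
    rw [Option.bind_eq_some_iff] at hu
    obtain ⟨z, -, hz⟩ := hu
    rw [Option.bind_eq_some_iff] at hz
    obtain ⟨L, hL, hq⟩ := hz
    rw [Option.map_eq_some_iff] at hq
    obtain ⟨q, hq, hqi⟩ := hq
    have hL' : L = cl p z.2.1 := (hF _ _ _).2 ⟨_, hL⟩
    refine ⟨z.2.1, q, ?_, hqi⟩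
    rw [← hL']
    obtain ⟨hk, hkq⟩ := List.getElem?_eq_some_iff.1 hq
    exact hkq ▸ List.getElem_mem hk
  · rintro ⟨t, q, hq, rfl⟩
    obtain ⟨s, hs⟩ := (hF p t _).1 rfl
    obtain ⟨k, hk, hkq⟩ := List.getElem_of_mem hq
    refine ⟨encode (s, t, k), ?_⟩
    unfold enI
    rw [encodek, Option.bind_some]
    dsimp only
    rw [hs, Option.bind_some, List.getElem?_eq_getElem hk, hkq]
    rfl

theorem mem_enJ {α : Type*} (cl : α → ℕ → List (ℕ × ℕ)) (F : ℕ → α × ℕ → Option (List (ℕ × ℕ)))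
    (hF : ∀ p t L, L = cl p t ↔ ∃ s, F s (p, t) = some L) (d : ℕ) (p : α) (i j : ℕ) :
    (∃ u, enJ F d (p, i) u = some j) ↔ ∃ t, (i, 2 * j + d) ∈ cl p t := by
  constructor
  · rintro ⟨u, hu⟩
    unfold enJ at hu
    rw [Option.bind_eq_some_iff] at hu
    obtain ⟨z, -, hz⟩ := hu
    rw [Option.bind_eq_some_iff] at hz
    obtain ⟨L, hL, hq⟩ := hz
    have hL' : L = cl p z.2.1 := (hF _ _ _).2 ⟨_, hL⟩
    split_ifs at hq with hm
    cases hq
    exact ⟨z.2.1, hL' ▸ hm⟩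
  · rintro ⟨t, hq⟩
    obtain ⟨s, hs⟩ := (hF p t _).1 rfl
    refine ⟨encode (s, t, j), ?_⟩
    unfold enJ
    rw [encodek, Option.bind_some]
    dsimp only
    rw [hs, Option.bind_some, if_pos hq]

theorem card_ids {α : Type*} (cl : α → ℕ → List (ℕ × ℕ)) (p : α) (h : ∀ t, cl p t ⊆ cl p (t + 1))
    (A B N : ℕ) (hs : ∀ t, SizeN A B N (cl p t)) (S : Finset ℕ)
    (hS : ∀ i ∈ S, ∃ t, ∃ q ∈ cl p t, q.1 = i) : S.card ≤ N := by
  obtain ⟨T, hT⟩ := cl_stage cl p h S (fun i q => q.1 = i) hS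
  refine le_trans ?_ (hs T).2
  refine le_trans (Finset.card_le_card (t := (Pool.Agent.Helper760.Cov.addNew [] ((cl p T).map Prod.fst)).toFinset) ?_)
    (List.toFinset_card_le _)
  intro i hi
  obtain ⟨q, hq, rfl⟩ := hT i hi
  rw [List.mem_toFinset]
  exact mem_addNew _ _ _ (Or.inr (List.mem_map_of_mem hq))

theorem card_elts {α : Type*} (cl : α → ℕ → List (ℕ × ℕ)) (p : α) (h : ∀ t, cl p t ⊆ cl p (t + 1))
    (d m i : ℕ) (hs : ∀ t, ∀ q ∈ cl p t, ((cl p t).filter (fun r => r.1 = q.1 ∧ r.2 % 2 = d)).length ≤ m)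
    (hd : d < 2) (S : Finset ℕ)
    (hS : ∀ j ∈ S, ∃ t, (i, 2 * j + d) ∈ cl p t) : S.card ≤ m := by
  obtain ⟨T, hT⟩ := cl_stage cl p h S (fun j q => q = (i, 2 * j + d))
    (fun j hj => by obtain ⟨t, ht⟩ := hS j hj; exact ⟨t, _, ht, rfl⟩)
  rcases S.eq_empty_or_nonempty with rfl | ⟨j0, hj0⟩
  · simp
  · obtain ⟨q, hq, rfl⟩ := hT j0 hj0
    refine le_trans ?_ (hs T _ hq)
    refine le_trans ?_ (List.toFinset_card_le _)
    apply Finset.card_le_card_of_injOn (fun j => ((i, 2 * j + d) : ℕ × ℕ))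
    · intro j hj
      obtain ⟨q, hq, rfl⟩ := hT j hj
      simp only [List.coe_toFinset, Set.mem_ofPred_eq, List.mem_filter]
      refine ⟨hq, ?_⟩
      simp only [decide_eq_true_eq, true_and]
      omega
    · intro j _ j' _ hjj
      have := congrArg Prod.snd hjj
      simp only at this
      omega

theorem clusterK {α : Type*} [Primcodable α] (cl : α → ℕ → List (ℕ × ℕ)) (hcl : Computable₂ cl) :
    ∃ c : ℕ, ∀ (p : α) (a b N : ℕ), (∀ t, cl p t ⊆ cl p (t + 1)) →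
      (∀ t, SizeN (2 ^ a) (2 ^ b) (2 ^ N) (cl p t)) → ∀ t, ∀ q ∈ cl p t,
        K q.1 () ≤ N + 2 * Nat.size (encode p) + c ∧
        ∀ j, ((q.1, 2 * j) ∈ cl p t → K j q.1 ≤ a + 2 * Nat.size (encode p) + c) ∧
          ((q.1, 2 * j + 1) ∈ cl p t → K j q.1 ≤ b + 2 * Nat.size (encode p) + c) := by
  have hf : Partrec (fun x : α × ℕ => (Part.some (cl x.1 x.2) : Part (List (ℕ × ℕ)))) :=
    Computable.partrec hcl
  obtain ⟨F, hF1, hF2, -⟩ := exists_stepped hf
  have hF : ∀ p t L, L = cl p t ↔ ∃ s, F s (p, t) = some L := by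
    intro p t L
    rw [← hF2 (p, t) L, Part.mem_some_iff]
  obtain ⟨c1, h1⟩ := K_index (primrec_enI hF1)
  obtain ⟨c2, h2⟩ := K_index (primrec_enJ hF1 0)
  obtain ⟨c3, h3⟩ := K_index (primrec_enJ hF1 1)
  refine ⟨c1 + c2 + c3, ?_⟩
  intro p a b N hinc hsz t q hq
  have e1 := h1 p () N (fun S hS => card_ids cl p hinc _ _ _ hsz S
    (fun i hi => (mem_enI cl F hF p i).1 (hS i hi))) q.1 ((mem_enI cl F hF p q.1).2 ⟨t, q, hq, rfl⟩)
  refine ⟨by omega, ?_⟩
  intro j
  constructor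
  · intro hj
    have e2 := h2 p q.1 a (fun S hS => card_elts cl p hinc 0 (2 ^ a) q.1
      (fun t q hq => ((hsz t).1 q hq).1) (by norm_num) S
      (fun j hj => (mem_enJ cl F hF 0 p q.1 j).1 (hS j hj))) j ((mem_enJ cl F hF 0 p q.1 j).2 ⟨t, hj⟩)
    omega
  · intro hj
    have e3 := h3 p q.1 b (fun S hS => card_elts cl p hinc 1 (2 ^ b) q.1
      (fun t q hq => ((hsz t).1 q hq).2) (by norm_num) S
      (fun j hj => (mem_enJ cl F hF 1 p q.1 j).1 (hS j hj))) j ((mem_enJ cl F hF 1 p q.1 j).2 ⟨t, hj⟩)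
    omega

end Pool.Agent.Helper760.GW.J1462
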