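import Mathlib
import Pool.Agent.Helper760.Profile
import Pool.Agent.Helper760.GW.Defs2
import Pool.Agent.Helper760.Cov.Base2

set_option autoImplicit false

namespace Pool.Agent.Helper760.GW.J1463

open Encodable MeasureTheory
open Pool.Agent.Helper760.Kolm
open Pool.Agent.Helper760.Cov (SizeN nG)

theorem labK : ∃ c : ℕ, ∀ (n0 t j i : ℕ) (x : List Bool), (lab n0 t)[j]? = some x →
    K x i ≤ K j i + 2 * Nat.size (K j i) + 2 * Nat.size n0 + c := by
  obtain ⟨c1, h1⟩ := K_chain (α := ℕ) (β := List Bool) (γ := ℕ)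
  have h0 : Partrec (fun x : ℕ × ℕ => nth (enX x.1) x.2) := partrec_nth primrec_enX
  have hg : Computable (fun z : ℕ × List Bool × (ℕ × ℕ) => (z.1, z.2.2.1)) :=
    Computable.pair Computable.fst (Computable.fst.comp (Computable.snd.comp Computable.snd))
  have hφ : Partrec (fun z : ℕ × List Bool × (ℕ × ℕ) => nth (enX z.1) z.2.2.1) :=
    Partrec.comp (f := fun x : ℕ × ℕ => nth (enX x.1) x.2)
      (g := fun z : ℕ × List Bool × (ℕ × ℕ) => (z.1, z.2.2.1)) h0 hg
  obtain ⟨c2, h2⟩ := K_param (γ := ℕ) (α := List Bool) (β := ℕ × ℕ)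
    (fun z : ℕ × List Bool × (ℕ × ℕ) => nth (enX z.1) z.2.2.1) hφ
  refine ⟨c1 + c2, fun n0 t j i x hx => ?_⟩
  have e1 := h1 j x i
  have hmem : x ∈ nth (enX n0) j := (mem_nth _ _ _).2 ⟨t, hx⟩
  have e2 := h2 n0 [] (j, i) x hmem
  have e3 : (encode n0 : ℕ) = n0 := encode_nat n0
  have e4 : ([] : List Bool).length = 0 := rfl
  rw [e3, e4] at e2
  clear h1 h2 h0 hφ hg hmem hx
  generalize K x i = A at *
  generalize K j i = B at *
  generalize K x (j, i) = C at *
  omega

theorem mem_lab (n0 : ℕ) (x : List Bool) (hx : K x () ≤ n0) :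
    ∃ t0 : ℕ, ∀ t : ℕ, t0 ≤ t → ∃ j : ℕ, (lab n0 t)[j]? = some x := by
  obtain ⟨t0, j, hj⟩ := exists_index (enX n0) x ((mem_enX n0 x).2 hx)
  refine ⟨t0, fun t ht => ⟨j, ?_⟩⟩
  obtain ⟨l, hl⟩ := collect_prefix (enX n0) ht
  unfold lab
  rw [← hl, List.getElem?_append_left]
  · exact hj
  · exact (List.getElem?_eq_some_iff.1 hj).1

theorem condC_K (D : List Bool → List Bool →. List Bool) (hD : OptimalCond D) :
    ∃ c : ℕ, ∀ s y : List Bool, condC D s y ≤ K s y + c ∧ K s y ≤ condC D s y + c := by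
  obtain ⟨hDp, hopt⟩ := hD
  -- the complexity is attained
  have hne : ∀ s y : List Bool, {m : ℕ | ∃ p : List Bool, s ∈ D p y ∧ p.length = m}.Nonempty := by
    intro s y
    have hE : Partrec₂ (fun (p : List Bool) (_ : List Bool) => (Part.some p : Part (List Bool))) :=
      (Computable.fst).partrec
    obtain ⟨c, hc⟩ := hopt _ hE
    obtain ⟨q, hq, _⟩ := hc s y s (Part.mem_some s)
    exact ⟨q.length, q, hq, rfl⟩
  have hφ : Partrec (fun z : Unit × List Bool × List Bool => D z.2.1 z.2.2) :=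
    hDp.comp (Computable.fst.comp Computable.snd) (Computable.snd.comp Computable.snd)
  obtain ⟨c1, h1⟩ := K_param (γ := Unit) (α := List Bool) (β := List Bool) _ hφ
  have hE : Partrec₂ (fun (p : List Bool) (y : List Bool) =>
      (M p (encode y)).bind fun n => (Part.ofOption (decode (α := List Bool) n))) := by
    refine Partrec.bind ?_ ?_
    · exact partrec_M.comp Computable.fst (Computable.encode.comp Computable.snd)
    · exact (Computable.decode.comp Computable.snd).ofOption
  obtain ⟨c2, h2⟩ := hopt _ hE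
  refine ⟨c1 + c2, fun s y => ⟨?_, ?_⟩⟩
  · obtain ⟨p, hp, hpl⟩ := K_spec s y
    have hmem : s ∈ (M p (encode y)).bind fun n => (Part.ofOption (decode (α := List Bool) n)) := by
      refine Part.mem_bind hp ?_
      rw [encodek]
      exact Part.mem_some s
    obtain ⟨q, hq, hql⟩ := h2 p y s hmem
    have : condC D s y ≤ q.length := Nat.sInf_le ⟨q, hq, rfl⟩
    omega
  · obtain ⟨p, hp, hpl⟩ := Nat.sInf_mem (hne s y)
    have e1 := h1 () p y s hp
    simp only [size_encode_unit] at e1
    have : p.length = condC D s y := hpl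
    omega

end Pool.Agent.Helper760.GW.J1463
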