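import Mathlib
import Pool.Agent.Helper760.Profile
import Pool.Agent.Helper760.GW.Defs2
import Pool.Agent.Helper760.Cov.Base2

set_option autoImplicit false

namespace Pool.Agent.Helper760.GW.J1464

open Encodable MeasureTheory
open Pool.Agent.Helper760.Kolm
open Pool.Agent.Helper760.Cov (SizeN nG)

private theorem fGWpr_half {G : List Bool → List Bool × List Bool → Option (List Bool)}
    (hG : Primrec₂ G) :
    Primrec (fun x : List Bool × List Bool × ℕ × List (List Bool) =>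
      half G x.1 x.2.1 x.2.2.1 x.2.2.2) := by
  have h0 : PrimrecRel (fun (w : List Bool)
      (y : ℕ × (List Bool × List Bool × ℕ × List (List Bool))) =>
      G y.2.1 (w, y.2.2.1) = y.2.2.2.2[y.1]?) := by
    refine Primrec.eq.comp₂ ?_ ?_
    · exact (hG.comp (Primrec.fst.comp (Primrec.snd.comp Primrec.snd))
        (Primrec.pair Primrec.fst
          (Primrec.fst.comp (Primrec.snd.comp (Primrec.snd.comp Primrec.snd))))).to₂
    · exact (Primrec.list_getElem?.comp
        (Primrec.snd.comp (Primrec.snd.comp (Primrec.snd.comp (Primrec.snd.comp Primrec.snd))))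
        (Primrec.fst.comp Primrec.snd)).to₂
  have h1 : PrimrecRel (fun (j : ℕ) (x : List Bool × List Bool × ℕ × List (List Bool)) =>
      ∃ w ∈ allLe x.2.2.1, G x.1 (w, x.2.1) = x.2.2.2[j]?) := by
    have h2 := h0.exists_mem_list
    have h3 := h2.comp
      (f := fun y : ℕ × (List Bool × List Bool × ℕ × List (List Bool)) => allLe y.2.2.2.1)
      (g := fun y : ℕ × (List Bool × List Bool × ℕ × List (List Bool)) => y)
      (primrec_allLe.comp (Primrec.fst.comp (Primrec.snd.comp (Primrec.snd.comp Primrec.snd))))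
      Primrec.id
    exact h3
  have h4 := h1.listFilter
  exact h4.comp (Primrec.list_range.comp (Primrec.list_length.comp
    (Primrec.snd.comp (Primrec.snd.comp Primrec.snd)))) Primrec.id

private theorem fGWpr_dec : Primrec dec :=
  Primrec.list_tail.comp (Primrec.list_dropWhile (Primrec.dom_bool _))

private theorem fGWpr_lab : Primrec₂ lab := primrec_collect primrec_enX

section
attribute [local irreducible] dec half lab

private theorem fGWpr_main {G : List Bool → List Bool × List Bool → Option (List Bool)}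
    (hG : Primrec₂ G) : Primrec₂ (fGW G) := by
  have hz : Primrec (fun y : (ℕ × ℕ × ℕ × ℕ × ℕ) × List Bool => y.1.2.2.2.1 + 1) :=
    Primrec.succ.comp (Primrec.fst.comp (Primrec.snd.comp (Primrec.snd.comp
      (Primrec.snd.comp Primrec.fst))))
  have hρ : Primrec (fun y : (ℕ × ℕ × ℕ × ℕ × ℕ) × List Bool =>
      y.2.drop (y.1.2.2.2.1 + 1)) := Primrec.list_drop.comp hz Primrec.snd
  have hd : Primrec (fun y : (ℕ × ℕ × ℕ × ℕ × ℕ) × List Bool =>
      dec (y.2.take (y.1.2.2.2.1 + 1))) := fGWpr_dec.comp (Primrec.list_take.comp hz Primrec.snd)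
  have hlab : Primrec (fun y : (ℕ × ℕ × ℕ × ℕ × ℕ) × List Bool => lab y.1.1 y.2.length) :=
    fGWpr_lab.comp (Primrec.fst.comp Primrec.fst) (Primrec.list_length.comp Primrec.snd)
  have ho : Primrec (fun y : (ℕ × ℕ × ℕ × ℕ × ℕ) × List Bool =>
      G (y.2.drop (y.1.2.2.2.1 + 1)) (dec (y.2.take (y.1.2.2.2.1 + 1)), [])) :=
    hG.comp hρ (Primrec.pair hd (Primrec.const []))
  have hh1 : Primrec₂ (fun (y : (ℕ × ℕ × ℕ × ℕ × ℕ) × List Bool) (q : List Bool) =>
      half G (y.2.drop (y.1.2.2.2.1 + 1)) q y.1.2.1 (lab y.1.1 y.2.length)) := by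
    have e0 : Primrec (fun x : ((ℕ × ℕ × ℕ × ℕ × ℕ) × List Bool) × List Bool => x.1.1.2.1) :=
      Primrec.fst.comp (Primrec.snd.comp (Primrec.fst.comp Primrec.fst))
    have e1 : Primrec (fun x : ((ℕ × ℕ × ℕ × ℕ × ℕ) × List Bool) × List Bool =>
        ((x.1.2.drop (x.1.1.2.2.2.1 + 1), x.2, x.1.1.2.1, lab x.1.1.1 x.1.2.length) :
          List Bool × List Bool × ℕ × List (List Bool))) :=
      Primrec.pair (hρ.comp Primrec.fst) (Primrec.pair Primrec.snd
        (Primrec.pair e0 (hlab.comp Primrec.fst)))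
    have e2 := (fGWpr_half hG).comp e1
    exact e2
  have hh2 : Primrec₂ (fun (y : (ℕ × ℕ × ℕ × ℕ × ℕ) × List Bool) (q : List Bool) =>
      half G (y.2.drop (y.1.2.2.2.1 + 1)) q y.1.2.2.1 (lab y.1.1 y.2.length)) := by
    have e0 : Primrec (fun x : ((ℕ × ℕ × ℕ × ℕ × ℕ) × List Bool) × List Bool => x.1.1.2.2.1) :=
      Primrec.fst.comp (Primrec.snd.comp (Primrec.snd.comp (Primrec.fst.comp Primrec.fst)))
    have e1 : Primrec (fun x : ((ℕ × ℕ × ℕ × ℕ × ℕ) × List Bool) × List Bool =>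
        ((x.1.2.drop (x.1.1.2.2.2.1 + 1), x.2, x.1.1.2.2.1, lab x.1.1.1 x.1.2.length) :
          List Bool × List Bool × ℕ × List (List Bool))) :=
      Primrec.pair (hρ.comp Primrec.fst) (Primrec.pair Primrec.snd
        (Primrec.pair e0 (hlab.comp Primrec.fst)))
    have e2 := (fGWpr_half hG).comp e1
    exact e2
  have hg : Primrec₂ (fun (y : (ℕ × ℕ × ℕ × ℕ × ℕ) × List Bool) (q : List Bool) =>
      (half G (y.2.drop (y.1.2.2.2.1 + 1)) q y.1.2.1 (lab y.1.1 y.2.length)).map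
        (fun j => 2 * j) ++
      (half G (y.2.drop (y.1.2.2.2.1 + 1)) q y.1.2.2.1 (lab y.1.1 y.2.length)).map
        (fun j => 2 * j + 1)) := by
    have d1 : Primrec₂ (fun (_ : ((ℕ × ℕ × ℕ × ℕ × ℕ) × List Bool) × List Bool) (j : ℕ) => 2 * j) :=
      (Primrec.nat_mul.comp (Primrec.const 2) Primrec.snd).to₂
    have d2 : Primrec₂ (fun (_ : ((ℕ × ℕ × ℕ × ℕ × ℕ) × List Bool) × List Bool) (j : ℕ) =>
        2 * j + 1) := (Primrec.succ.comp (Primrec.nat_mul.comp (Primrec.const 2) Primrec.snd)).to₂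
    have f1 := Primrec.list_map hh1 d1
    have f2 := Primrec.list_map hh2 d2
    have f3 := Primrec.list_append.comp f1 f2
    exact f3
  have hcase := Primrec.option_casesOn ho (Primrec.const ([] : List ℕ)) hg
  have hlen : PrimrecPred (fun y : (ℕ × ℕ × ℕ × ℕ × ℕ) × List Bool =>
      y.2.length < y.1.2.2.2.1 + 1) :=
    Primrec.nat_lt.comp (Primrec.list_length.comp Primrec.snd) hz
  have hfin := Primrec.ite hlen (Primrec.const ([] : List ℕ)) hcase
  refine Primrec.of_eq hfin ?_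
  rintro ⟨z, σ⟩
  unfold fGW
  dsimp only
  split_ifs with h
  · rfl
  · cases G (σ.drop (z.2.2.2.1 + 1)) (dec (σ.take (z.2.2.2.1 + 1)), []) <;> rfl

end

private theorem fGWpr_prm : Primrec prm := by
  have h1 : Primrec (fun z : ℕ × ℕ × ℕ × ℕ × ℕ => z.1) := Primrec.fst
  have h2 : Primrec (fun z : ℕ × ℕ × ℕ × ℕ × ℕ => z.2.1) := Primrec.fst.comp Primrec.snd
  have h3 : Primrec (fun z : ℕ × ℕ × ℕ × ℕ × ℕ => z.2.2.1) :=
    Primrec.fst.comp (Primrec.snd.comp Primrec.snd)
  have h4 : Primrec (fun z : ℕ × ℕ × ℕ × ℕ × ℕ => z.2.2.2.1) :=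
    Primrec.fst.comp (Primrec.snd.comp (Primrec.snd.comp Primrec.snd))
  have h5 : Primrec (fun z : ℕ × ℕ × ℕ × ℕ × ℕ => z.2.2.2.2) :=
    Primrec.snd.comp (Primrec.snd.comp (Primrec.snd.comp Primrec.snd))
  have hadd := Primrec.nat_add
  have ha : Primrec (fun z : ℕ × ℕ × ℕ × ℕ × ℕ =>
      z.1 + z.2.1 + z.2.2.1 + z.2.2.2.1 + z.2.2.2.2 + 5) :=
    hadd.comp (hadd.comp (hadd.comp (hadd.comp (hadd.comp h1 h2) h3) h4) h5) (Primrec.const 5)
  have hb : Primrec (fun z : ℕ × ℕ × ℕ × ℕ × ℕ => z.2.1 + 1) := Primrec.succ.comp h2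
  have hc : Primrec (fun z : ℕ × ℕ × ℕ × ℕ × ℕ => z.2.2.1 + 1) := Primrec.succ.comp h3
  have hd : Primrec (fun z : ℕ × ℕ × ℕ × ℕ × ℕ => z.2.2.2.1 + 1 + z.2.2.2.2) :=
    hadd.comp (Primrec.succ.comp h4) h5
  exact Primrec.pair ha (Primrec.pair hb (Primrec.pair hc hd))

theorem fGW_primrec (G : List Bool → List Bool × List Bool → Option (List Bool))
    (hG : Primrec₂ G) : Primrec₂ (fGW G) ∧ Primrec prm := by
  exact ⟨fGWpr_main hG, fGWpr_prm⟩

end Pool.Agent.Helper760.GW.J1464
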