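import Mathlib
import Pool.Agent.Helper760.Profile
import Pool.Agent.Helper760.GW.Defs2
import Pool.Agent.Helper760.Cov.Base2

set_option autoImplicit false

namespace Pool.Agent.Helper760.GW.J1465

open Encodable MeasureTheory
open Pool.Agent.Helper760.Kolm
open Pool.Agent.Helper760.Cov (SizeN nG)

theorem mem_half (G : List Bool → List Bool × List Bool → Option (List Bool))
    (ρ q : List Bool) (a : ℕ) (L : List (List Bool)) (j : ℕ) :
    j ∈ half G ρ q a L ↔ j < L.length ∧ ∃ w ∈ allLe a, G ρ (w, q) = L[j]? := by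
  unfold half
  rw [List.mem_filter, List.mem_range, decide_eq_true_iff]

theorem half_mono (G : List Bool → List Bool × List Bool → Option (List Bool)) (hm : MonB G)
    {ρ ρ' : List Bool} (hρ : ρ <+: ρ') (q : List Bool) (a : ℕ) {L L' : List (List Bool)}
    (hL : L <+: L') : half G ρ q a L ⊆ half G ρ' q a L' := by
  intro j hj
  rw [mem_half] at hj ⊢
  obtain ⟨h1, w, hw, h2⟩ := hj
  obtain ⟨T, rfl⟩ := hL
  refine ⟨by rw [List.length_append]; omega, w, hw, ?_⟩
  rw [List.getElem?_append_left h1, List.getElem?_eq_getElem h1]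
  rw [List.getElem?_eq_getElem h1] at h2
  exact hm ρ ρ' (w, q) _ hρ h2

theorem length_lab (n0 t : ℕ) : (lab n0 t).length < 2 ^ (n0 + 1) := by
  have h1 : (lab n0 t).toFinset.card = (lab n0 t).length :=
    List.toFinset_card_of_nodup (nodup_collect _ _)
  rw [← h1]
  refine card_le () n0 _ ?_
  intro a ha
  rw [List.mem_toFinset] at ha
  obtain ⟨i, _, hi⟩ := (mem_collect _ _ _).1 ha
  exact (mem_enX n0 a).1 ⟨i, hi⟩

theorem card_half (G : List Bool → List Bool × List Bool → Option (List Bool))
    (ρ q : List Bool) (a : ℕ) (L : List (List Bool)) (hL : L.Nodup) :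
    (half G ρ q a L).toFinset.card ≤ 2 ^ (a + 1) := by
  classical
  have h : ∀ j : ℕ, ∃ w : List Bool, j ∈ half G ρ q a L → w ∈ allLe a ∧ G ρ (w, q) = L[j]? := by
    intro j
    by_cases hj : j ∈ half G ρ q a L
    · obtain ⟨_, w, hw, h2⟩ := (mem_half G ρ q a L j).1 hj
      exact ⟨w, fun _ => ⟨hw, h2⟩⟩
    · exact ⟨[], fun h => absurd h hj⟩
  choose f hf using h
  have h1 : (half G ρ q a L).toFinset.card ≤ (allLe a).toFinset.card := by
    refine Finset.card_le_card_of_injOn f ?_ ?_
    · intro j hj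
      have hj' : j ∈ half G ρ q a L := by simpa using hj
      have := (hf j hj').1
      simpa using this
    · intro j hj j' hj' he
      have hj1 : j ∈ half G ρ q a L := by simpa using hj
      have hj2 : j' ∈ half G ρ q a L := by simpa using hj'
      have e1 := (hf j hj1).2
      have e2 := (hf j' hj2).2
      rw [he, e2] at e1
      have l1 := ((mem_half G ρ q a L j).1 hj1).1
      have l2 := ((mem_half G ρ q a L j').1 hj2).1
      rw [List.getElem?_eq_getElem l1, List.getElem?_eq_getElem l2] at e1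
      exact ((hL.getElem_inj_iff).1 (Option.some.inj e1)).symm
  have h2 := List.toFinset_card_le (allLe a)
  have h3 := length_allLe a
  omega

theorem take_snoc {σ : List Bool} {k : ℕ} (h : ¬ σ.length < k) (b : Bool) :
    (σ ++ [b]).take k = σ.take k := List.take_append_of_le_length (by omega)

theorem drop_snoc {σ : List Bool} {k : ℕ} (h : ¬ σ.length < k) (b : Bool) :
    (σ ++ [b]).drop k = σ.drop k ++ [b] := List.drop_append_of_le_length (by omega)

theorem fGW_mono (G : List Bool → List Bool × List Bool → Option (List Bool)) (hm : MonB G)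
    (z : ℕ × ℕ × ℕ × ℕ × ℕ) (σ : List Bool) (b : Bool) : fGW G z σ ⊆ fGW G z (σ ++ [b]) := by
  by_cases hs : σ.length < z.2.2.2.1 + 1
  · unfold fGW
    rw [if_pos hs]
    exact List.nil_subset _
  · have hs' : ¬ (σ ++ [b]).length < z.2.2.2.1 + 1 := by
      rw [List.length_append]
      omega
    unfold fGW
    rw [if_neg hs, if_neg hs', take_snoc hs, drop_snoc hs]
    cases hG : G (σ.drop (z.2.2.2.1 + 1)) (dec (σ.take (z.2.2.2.1 + 1)), []) with
    | none => exact List.nil_subset _
    | some q =>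
      have hG' := hm _ (σ.drop (z.2.2.2.1 + 1) ++ [b]) _ _ (List.prefix_append _ _) hG
      rw [hG']
      have hL : lab z.1 σ.length <+: lab z.1 (σ ++ [b]).length :=
        collect_prefix _ (by rw [List.length_append]; omega)
      intro e he
      simp only [List.mem_append, List.mem_map] at he ⊢
      rcases he with ⟨j, hj, rfl⟩ | ⟨j, hj, rfl⟩
      · exact Or.inl ⟨j, half_mono G hm (List.prefix_append _ _) q _ hL hj, rfl⟩
      · exact Or.inr ⟨j, half_mono G hm (List.prefix_append _ _) q _ hL hj, rfl⟩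

theorem fGW_cases (G : List Bool → List Bool × List Bool → Option (List Bool))
    (z : ℕ × ℕ × ℕ × ℕ × ℕ) (σ : List Bool) : ∃ ρ q : List Bool, fGW G z σ ⊆
      (half G ρ q z.2.1 (lab z.1 σ.length)).map (fun j => 2 * j) ++
      (half G ρ q z.2.2.1 (lab z.1 σ.length)).map (fun j => 2 * j + 1) := by
  by_cases hs : σ.length < z.2.2.2.1 + 1
  · refine ⟨[], [], ?_⟩
    unfold fGW
    rw [if_pos hs]
    exact List.nil_subset _
  · unfold fGW
    rw [if_neg hs]
    cases hG : G (σ.drop (z.2.2.2.1 + 1)) (dec (σ.take (z.2.2.2.1 + 1)), []) with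
    | none => exact ⟨[], [], List.nil_subset _⟩
    | some q => exact ⟨_, q, List.Subset.refl _⟩

theorem fGW_lt (G : List Bool → List Bool × List Bool → Option (List Bool))
    (z : ℕ × ℕ × ℕ × ℕ × ℕ) (σ : List Bool) : ∀ e ∈ fGW G z σ, e < 2 * 2 ^ (prm z).1 := by
  intro e he
  obtain ⟨ρ, q, h⟩ := fGW_cases G z σ
  have h1 := length_lab z.1 σ.length
  have h2 : 2 ^ (z.1 + 1) ≤ 2 ^ (prm z).1 := by
    apply Nat.pow_le_pow_right (by norm_num)
    show z.1 + 1 ≤ z.1 + z.2.1 + z.2.2.1 + z.2.2.2.1 + z.2.2.2.2 + 5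
    omega
  have h3 := h he
  simp only [List.mem_append, List.mem_map] at h3
  rcases h3 with ⟨j, hj, rfl⟩ | ⟨j, hj, rfl⟩
  · have := ((mem_half _ _ _ _ _ _).1 hj).1
    omega
  · have := ((mem_half _ _ _ _ _ _).1 hj).1
    omega

theorem fGW_card (G : List Bool → List Bool × List Bool → Option (List Bool))
    (z : ℕ × ℕ × ℕ × ℕ × ℕ) (σ : List Bool) :
    ((fGW G z σ).toFinset.filter (fun e => e % 2 = 0)).card ≤ 2 ^ (prm z).2.1 ∧
      ((fGW G z σ).toFinset.filter (fun e => e % 2 = 1)).card ≤ 2 ^ (prm z).2.2.1 := by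
  obtain ⟨ρ, q, h⟩ := fGW_cases G z σ
  have hn : (lab z.1 σ.length).Nodup := nodup_collect _ _
  constructor
  · have h1 : (fGW G z σ).toFinset.filter (fun e => e % 2 = 0) ⊆
        ((half G ρ q z.2.1 (lab z.1 σ.length)).toFinset).image (fun j => 2 * j) := by
      intro e he
      rw [Finset.mem_filter, List.mem_toFinset] at he
      have h3 := h he.1
      simp only [List.mem_append, List.mem_map] at h3
      rw [Finset.mem_image]
      rcases h3 with ⟨j, hj, rfl⟩ | ⟨j, hj, rfl⟩
      · exact ⟨j, List.mem_toFinset.2 hj, rfl⟩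
      · have := he.2
        omega
    exact (Finset.card_le_card h1).trans (Finset.card_image_le.trans (card_half G ρ q _ _ hn))
  · have h1 : (fGW G z σ).toFinset.filter (fun e => e % 2 = 1) ⊆
        ((half G ρ q z.2.2.1 (lab z.1 σ.length)).toFinset).image (fun j => 2 * j + 1) := by
      intro e he
      rw [Finset.mem_filter, List.mem_toFinset] at he
      have h3 := h he.1
      simp only [List.mem_append, List.mem_map] at h3
      rw [Finset.mem_image]
      rcases h3 with ⟨j, hj, rfl⟩ | ⟨j, hj, rfl⟩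
      · have := he.2
        omega
      · exact ⟨j, List.mem_toFinset.2 hj, rfl⟩
    exact (Finset.card_le_card h1).trans (Finset.card_image_le.trans (card_half G ρ q _ _ hn))

end Pool.Agent.Helper760.GW.J1465
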