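import Mathlib
import Pool.Agent.Helper760.Profile
import Pool.Agent.Helper760.GW.Defs2
import Pool.Agent.Helper760.Cov.Base2

set_option autoImplicit false

namespace Pool.Agent.Helper760.GW.J1466

open Encodable MeasureTheory
open Pool.Agent.Helper760.Kolm
open Pool.Agent.Helper760.Cov (SizeN nG)

theorem length_code (g : ℕ) (p : List Bool) (hp : p.length ≤ g) : (code g p).length = g + 1 := by
  unfold code
  simp only [List.length_append, List.length_replicate, List.length_cons]
  omega

theorem dec_code (g : ℕ) (p : List Bool) : dec (code g p) = p := by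
  unfold dec code
  generalize g - p.length = m
  induction m with
  | zero => simp
  | succ m ih =>
    rw [List.replicate_succ, List.cons_append, List.dropWhile_cons_of_pos (by simp)]
    exact ih

theorem mem_half_of {G : List Bool → List Bool × List Bool → Option (List Bool)}
    {ρ q : List Bool} {a : ℕ} {L : List (List Bool)} {i : ℕ} {x : List Bool}
    (hi : L[i]? = some x) (hw : ∃ w ∈ allLe a, G ρ (w, q) = some x) : i ∈ half G ρ q a L := by
  unfold half
  rw [List.mem_filter]
  refine ⟨?_, ?_⟩
  · rw [List.mem_range]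
    exact (List.getElem?_eq_some_iff.1 hi).1
  · rw [decide_eq_true_iff, hi]
    exact hw

open scoped Classical in
theorem fGW_count (G : List Bool → List Bool × List Bool → Option (List Bool)) (hm : MonB G)
    (n0 a b g κ k i j : ℕ) (x y : List Bool)
    (hi : (lab n0 (g + 1 + k))[i]? = some x) (hj : (lab n0 (g + 1 + k))[j]? = some y)
    (h : 2 ^ k ≤ 2 ^ κ * ((allLen k).filter (fun ρ => PGW G a b g x y ρ)).length) :
    2 ^ (g + 1 + k) ≤ 2 ^ (prm (n0, a, b, g, κ)).2.2.2 *
      ((allLen (g + 1 + k)).filter (fun σ => 2 * i ∈ fGW G (n0, a, b, g, κ) σ ∧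
        2 * j + 1 ∈ fGW G (n0, a, b, g, κ) σ)).length := by
  set F := (allLen k).filter (fun ρ => PGW G a b g x y ρ) with hF
  set F' := (allLen (g + 1 + k)).filter (fun σ => 2 * i ∈ fGW G (n0, a, b, g, κ) σ ∧
        2 * j + 1 ∈ fGW G (n0, a, b, g, κ) σ) with hF'
  have hFn : F.Nodup := (nodup_allLen k).filter _
  have hFn' : F'.Nodup := (nodup_allLen (g + 1 + k)).filter _
  have hle : F.length ≤ F'.length := by
    rw [← List.toFinset_card_of_nodup hFn, ← List.toFinset_card_of_nodup hFn']
    have hch : ∀ ρ ∈ F.toFinset, ∃ p : List Bool, p.length ≤ g ∧ ∃ q, G ρ (p, []) = some q ∧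
        (∃ w ∈ allLe a, G ρ (w, q) = some x) ∧ ∃ w ∈ allLe b, G ρ (w, q) = some y := by
      intro ρ hρ
      rw [List.mem_toFinset, hF, List.mem_filter, decide_eq_true_iff] at hρ
      obtain ⟨p, hp, q, hq⟩ := hρ.2
      exact ⟨p, (mem_allLe _ _).1 hp, q, hq⟩
    choose! P hP using hch
    refine Finset.card_le_card_of_injOn (fun ρ => code g (P ρ) ++ ρ) ?_ ?_
    · intro ρ hρ
      have hρ' : ρ ∈ F.toFinset := hρ
      obtain ⟨hlen, q, hq, hx, hy⟩ := hP ρ hρ'
      have hρk : ρ.length = k := by
        rw [List.mem_toFinset, hF, List.mem_filter] at hρ'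
        exact (mem_allLen _ _).1 hρ'.1
      have hcl : (code g (P ρ)).length = g + 1 := length_code g _ hlen
      have hl : (code g (P ρ) ++ ρ).length = g + 1 + k := by
        rw [List.length_append, hcl, hρk]
      have htake : (code g (P ρ) ++ ρ).take (g + 1) = code g (P ρ) := by
        rw [← hcl, List.take_left]
      have hdrop : (code g (P ρ) ++ ρ).drop (g + 1) = ρ := by
        rw [← hcl, List.drop_left]
      have hf : fGW G (n0, a, b, g, κ) (code g (P ρ) ++ ρ) =
          (half G ρ q a (lab n0 (g + 1 + k))).map (fun j => 2 * j) ++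
          (half G ρ q b (lab n0 (g + 1 + k))).map (fun j => 2 * j + 1) := by
        unfold fGW
        simp only [hl, htake, hdrop, dec_code, hq]
        rw [if_neg (by omega)]
      show code g (P ρ) ++ ρ ∈ (F'.toFinset : Set (List Bool))
      rw [Finset.mem_coe, List.mem_toFinset, hF', List.mem_filter, decide_eq_true_iff]
      refine ⟨(mem_allLen _ _).2 hl, ?_, ?_⟩
      · rw [hf]
        exact List.mem_append_left _ (List.mem_map.2 ⟨i, mem_half_of hi hx, rfl⟩)
      · rw [hf]
        exact List.mem_append_right _ (List.mem_map.2 ⟨j, mem_half_of hj hy, rfl⟩)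
    · intro ρ hρ ρ' hρ' he
      have h1 := (hP ρ hρ).1
      have h2 := (hP ρ' hρ').1
      have e1 : (code g (P ρ) ++ ρ).drop (g + 1) = ρ := by
        rw [← length_code g _ h1, List.drop_left]
      have e2 : (code g (P ρ') ++ ρ').drop (g + 1) = ρ' := by
        rw [← length_code g _ h2, List.drop_left]
      have he' : code g (P ρ) ++ ρ = code g (P ρ') ++ ρ' := he
      rw [← e1, he', e2]
  have hprm : (prm (n0, a, b, g, κ)).2.2.2 = g + 1 + κ := rfl
  rw [hprm, pow_add, pow_add 2 (g + 1) κ, mul_assoc]
  exact Nat.mul_le_mul_left _ (h.trans (Nat.mul_le_mul_left _ hle))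

end Pool.Agent.Helper760.GW.J1466
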