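import Mathlib
import Pool.Agent.Helper760.GW.Base1
import Pool.Agent.Helper760.GW.J1459
import Pool.Agent.Helper760.GW.J1462
import Pool.Agent.Helper760.GW.J1463
import Pool.Agent.Helper760.GW.J1464
import Pool.Agent.Helper760.GW.J1465
import Pool.Agent.Helper760.GW.J1466
import Pool.Agent.Helper760.Cov.Base2

set_option autoImplicit false

namespace Pool.Agent.Helper760.GW

alias oracleDec_stepped := J1459.oracleDec_stepped
alias exists_optimalOracle := J1459.exists_optimalOracle
alias clusterK := J1462.clusterK
alias labK := J1463.labK
alias mem_lab := J1463.mem_lab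
alias condC_K := J1463.condC_K
alias fGW_primrec := J1464.fGW_primrec
alias fGW_mono := J1465.fGW_mono
alias fGW_lt := J1465.fGW_lt
alias fGW_card := J1465.fGW_card
alias fGW_count := J1466.fGW_count
alias computable_cover := Pool.Agent.Helper760.Cov.computable_cover

end Pool.Agent.Helper760.GW
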