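import Mathlib
import Pool.Agent.Helper760.Profile
import Pool.Agent.Helper760.GW.Base2

set_option autoImplicit false

namespace Pool.Agent.Helper760.GW.J1467

open Encodable MeasureTheory
open Pool.Agent.Helper760.Kolm
open Pool.Agent.Helper760.Cov (SizeN nG)

theorem mk_condC_spec (V : (ℕ → Bool) → List Bool → List Bool →. List Bool)
    (hV : OptimalOracle V) (A : ℕ → Bool) (s y : List Bool) (a : ℕ) (h : condC (V A) s y ≤ a) :
    ∃ p ∈ allLe a, s ∈ V A p y := by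
  have hne : {m : ℕ | ∃ p : List Bool, s ∈ V A p y ∧ p.length = m}.Nonempty := by
    obtain ⟨c, hc⟩ := hV.2 (fun _ p _ => Part.some p) ⟨_, OracleRec.left, fun A p y s => by
      simp [Part.mem_some_iff]⟩
    obtain ⟨q, hq, _⟩ := hc A s y s (Part.mem_some s)
    exact ⟨q.length, q, hq, rfl⟩
  obtain ⟨p, hp, hl⟩ := Nat.sInf_mem hne
  refine ⟨p, (mem_allLe _ _).2 ?_, hp⟩
  rw [hl]
  exact h

theorem mk_preB_prefix (A : ℕ → Bool) {k k' : ℕ} (h : k ≤ k') : preB A k <+: preB A k' := by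
  unfold preB
  refine List.IsPrefix.map A ?_
  have : List.range k = (List.range k').take k := by
    rw [List.take_range, min_eq_left h]
  rw [this]
  exact List.take_prefix _ _

theorem mk_PGW_mono (G : List Bool → List Bool × List Bool → Option (List Bool)) (hm : MonB G)
    (a b g : ℕ) (x y : List Bool) (ρ τ : List Bool) (h : ρ <+: τ) (hP : PGW G a b g x y ρ) :
    PGW G a b g x y τ := by
  obtain ⟨p, hp, q, hq, ⟨w, hw, hw'⟩, ⟨v, hv, hv'⟩⟩ := hP
  exact ⟨p, hp, q, hm _ _ _ _ h hq, ⟨w, hw, hm _ _ _ _ h hw'⟩, ⟨v, hv, hm _ _ _ _ h hv'⟩⟩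

theorem mk_SizeN_mono {a' b' N a'' b'' N'' : ℕ} {l : List (ℕ × ℕ)} (h : SizeN a' b' N l)
    (ha : a' ≤ a'') (hb : b' ≤ b'') (hN : N ≤ N'') : SizeN a'' b'' N'' l :=
  ⟨fun q hq => ⟨((h.1 q hq).1).trans ha, ((h.1 q hq).2).trans hb⟩, h.2.trans hN⟩

theorem mk_size_z (n0 a b g κ S : ℕ) (h0 : Nat.size n0 ≤ S) (h1 : Nat.size a ≤ S)
    (h2 : Nat.size b ≤ S) (h3 : Nat.size g ≤ S) (h4 : Nat.size κ ≤ S) :
    Nat.size (encode ((n0, a, b, g, κ) : ℕ × ℕ × ℕ × ℕ × ℕ)) ≤ 16 * S := by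
  simp only [encode_prod_val, encode_nat]
  have e1 := size_pair_le g κ
  have e2 := size_pair_le b (Nat.pair g κ)
  have e3 := size_pair_le a (Nat.pair b (Nat.pair g κ))
  have e4 := size_pair_le n0 (Nat.pair a (Nat.pair b (Nat.pair g κ)))
  omega

theorem mk_q : ∃ c : ℕ, ∀ d : ℕ, K ((List.range d).map (fun _ => true)) ([] : List Bool) ≤
    K d () + c := by
  have hp : Primrec (fun x : ℕ × List Bool => (List.range x.1).map (fun _ => true)) :=
    Primrec.list_map (Primrec.list_range.comp Primrec.fst) (Primrec.const true).to₂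
  obtain ⟨c, hc⟩ := K_comp (δ := ℕ) (β := List Bool) (α := List Bool) (γ := Unit)
    (fun (d : ℕ) (_ : List Bool) => (List.range d).map (fun _ => true)) hp.to_comp.to₂
    (fun _ => ()) (Computable.const ())
  exact ⟨c, fun d => hc d []⟩

theorem mk_x : ∃ c : ℕ, ∀ (x : List Bool) (d : ℕ),
    K x ((List.range d).map (fun _ => true)) ≤ K x d + c := by
  obtain ⟨c, hc⟩ := K_comp (δ := List Bool) (β := List Bool) (α := List Bool) (γ := ℕ)
    (fun (x : List Bool) (_ : List Bool) => x) Computable.fst.to₂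
    (fun q => q.length) Computable.list_length
  refine ⟨c, fun x d => ?_⟩
  have := hc x ((List.range d).map (fun _ => true))
  simpa using this

theorem mk_lab_bound (c1 c2 c4 C S a n0 Kj Kx Kq : ℕ) (hn0 : Nat.size n0 ≤ S) (ha : Nat.size a ≤ S)
    (h1 : Kj ≤ a + 2 + 2 * (16 * S) + c1) (h2 : Kx ≤ Kj + 2 * Nat.size Kj + 2 * Nat.size n0 + c2)
    (h3 : Kq ≤ Kx + c4) : Kq ≤ a + (5 * C + 200 + 3 * c1 + c2 + c4) * (S + 1) := by
  have e1 : Kj ≤ a + (34 + c1) * (S + 1) := by nlinarith [Nat.zero_le (c1 * S)]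
  have e2 : Nat.size Kj ≤ 2 * S + 36 + c1 := by
    have f1 := size_mono e1
    have f2 := size_add_le a ((34 + c1) * (S + 1))
    have f3 := size_mul_le (34 + c1) (S + 1)
    have f4 := size_le_self (34 + c1)
    have f5 := size_le_self (S + 1)
    omega
  have e3 : Kq ≤ a + 38 * S + 74 + 3 * c1 + c2 + c4 := by omega
  have e4 : (5 * C + 200 + 3 * c1 + c2 + c4) * (S + 1) =
    5 * (C * S) + 5 * C + 200 * S + 200 + 3 * (c1 * S) + 3 * c1 + c2 * S + c2 + c4 * S + c4 := by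
    ring
  rw [e4]
  have := Nat.zero_le (C * S)
  have := Nat.zero_le (c1 * S)
  have := Nat.zero_le (c2 * S)
  have := Nat.zero_le (c4 * S)
  omega

theorem main_K (V : (ℕ → Bool) → List Bool → List Bool →. List Bool) (hV : OptimalOracle V) :
    ∃ c : ℕ, ∀ (n0 a b g κ : ℕ) (x y : List Bool), K x () ≤ n0 → K y () ≤ n0 →
      ((2 : ENNReal) ^ κ)⁻¹ < coin {A | ∃ q, condC (V A) q [] ≤ g ∧ condC (V A) x q ≤ a ∧
        condC (V A) y q ≤ b} →
      ∃ q' : List Bool,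
        K q' ([] : List Bool) ≤ g + κ + c * (Nat.size (n0 + a + b + g + κ) + 1) ∧
        K x q' ≤ a + c * (Nat.size (n0 + a + b + g + κ) + 1) ∧
        K y q' ≤ b + c * (Nat.size (n0 + a + b + g + κ) + 1) := by
  classical
  obtain ⟨G, hG, hm, hVG⟩ := oracleDec_stepped V hV.1
  obtain ⟨cl, hcl, hcov⟩ := computable_cover (fGW G) (fGW_primrec G hG).1 prm (fGW_primrec G hG).2
  obtain ⟨c1, hc1⟩ := clusterK cl hcl
  obtain ⟨c2, hc2⟩ := labK
  obtain ⟨C, hC⟩ := nG_le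
  obtain ⟨c3, hc3⟩ := mk_q
  obtain ⟨c4, hc4⟩ := mk_x
  refine ⟨5 * C + 200 + 3 * c1 + c2 + c4 + c3, ?_⟩
  intro n0 a b g κ x y hx hy hcoin
  -- the event
  have hsub : {A | ∃ q, condC (V A) q [] ≤ g ∧ condC (V A) x q ≤ a ∧ condC (V A) y q ≤ b} ⊆
      {A | ∃ k, PGW G a b g x y (preB A k)} := by
    rintro A ⟨q, h1, h2, h3⟩
    obtain ⟨p, hp, hp'⟩ := mk_condC_spec V hV A q [] g h1
    obtain ⟨w, hw, hw'⟩ := mk_condC_spec V hV A x q a h2
    obtain ⟨v, hv, hv'⟩ := mk_condC_spec V hV A y q b h3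
    obtain ⟨k1, hk1⟩ := (hVG A p [] q).1 hp'
    obtain ⟨k2, hk2⟩ := (hVG A w q x).1 hw'
    obtain ⟨k3, hk3⟩ := (hVG A v q y).1 hv'
    refine ⟨max k1 (max k2 k3), p, hp, q, ?_, ⟨w, hw, ?_⟩, ⟨v, hv, ?_⟩⟩
    · exact hm _ _ _ _ (mk_preB_prefix A (le_max_left _ _)) hk1
    · exact hm _ _ _ _ (mk_preB_prefix A ((le_max_left _ _).trans (le_max_right _ _))) hk2
    · exact hm _ _ _ _ (mk_preB_prefix A ((le_max_right _ _).trans (le_max_right _ _))) hk3
  have hcoin' := lt_of_lt_of_le hcoin (measure_mono hsub)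
  obtain ⟨k0, hk0⟩ := coin_count (PGW G a b g x y)
    (fun ρ b' h => mk_PGW_mono G hm a b g x y _ _ (List.prefix_append _ _) h) κ hcoin'
  obtain ⟨tx, htx⟩ := mem_lab n0 x hx
  obtain ⟨ty, hty⟩ := mem_lab n0 y hy
  set k := max k0 (max tx ty) with hk
  have hkx : tx ≤ g + 1 + k := by omega
  have hky : ty ≤ g + 1 + k := by omega
  obtain ⟨i, hi⟩ := htx _ hkx
  obtain ⟨j, hj⟩ := hty _ hky
  have hcnt := fGW_count G hm n0 a b g κ k i j x y hi hj (by
    convert hk0 k (le_max_left _ _))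
  set z : ℕ × ℕ × ℕ × ℕ × ℕ := (n0, a, b, g, κ) with hz
  set n := n0 + a + b + g + κ + 5 with hn
  obtain ⟨m1, m2, m3⟩ := hcov z n (a + 1) (b + 1) (g + 1 + κ) rfl (by omega) (by omega) (by omega)
    (fun σ b' => fGW_mono G hm z σ b') (fun σ e he => fGW_lt G z σ e he)
    (fun σ => fGW_card G z σ)
  have hprm : (prm z).2.2.2 = g + 1 + κ := rfl
  rw [hprm] at hcnt
  obtain ⟨q, hq, hqi, hqj⟩ := m3 (g + 1 + k) i j (by convert hcnt)
  have hS : ∀ t, SizeN (2 ^ (a + 2)) (2 ^ (b + 2)) (2 ^ ((g + 1 + κ + 1) + C * (Nat.size n + 1)))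
      (cl z t) := fun t => mk_SizeN_mono (m2 t) (by rw [pow_succ 2 (a + 1)]; omega)
        (by rw [pow_succ 2 (b + 1)]; omega) (hC _ _)
  obtain ⟨k1, k2⟩ := hc1 z (a + 2) (b + 2) ((g + 1 + κ + 1) + C * (Nat.size n + 1)) m1 hS
    (g + 1 + k) q hq
  have k3 := (k2 i).1 hqi
  have k4 := (k2 j).2 hqj
  have l1 := hc2 n0 (g + 1 + k) i q.1 x hi
  have l2 := hc2 n0 (g + 1 + k) j q.1 y hj
  set S := Nat.size (n0 + a + b + g + κ) with hSdef
  have s0 : Nat.size n0 ≤ S := size_mono (by omega)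
  have s1 : Nat.size a ≤ S := size_mono (by omega)
  have s2 : Nat.size b ≤ S := size_mono (by omega)
  have s3 : Nat.size g ≤ S := size_mono (by omega)
  have s4 : Nat.size κ ≤ S := size_mono (by omega)
  have sz : Nat.size (encode z) ≤ 16 * S := mk_size_z n0 a b g κ S s0 s1 s2 s3 s4
  have sn : Nat.size n ≤ S + 4 := by
    have h5 : Nat.size 5 = 3 := by decide
    have := size_add_le (n0 + a + b + g + κ) 5
    rw [← hn, ← hSdef, h5] at this
    omega
  refine ⟨(List.range q.1).map (fun _ => true), ?_, ?_, ?_⟩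
  · have e1 := hc3 q.1
    have e2 : C * (Nat.size n + 1) ≤ C * (S + 5) := Nat.mul_le_mul_left _ (by omega)
    have e3 : K ((List.range q.1).map (fun _ => true)) ([] : List Bool) ≤
        g + κ + 2 + C * (S + 5) + 32 * S + c1 + c3 := by omega
    refine e3.trans ?_
    nlinarith [Nat.zero_le (C * S), Nat.zero_le (c1 * S), Nat.zero_le (c2 * S),
      Nat.zero_le (c3 * S), Nat.zero_le (c4 * S)]
  · have e1 := hc4 x q.1
    have e2 := mk_lab_bound c1 c2 c4 C S a n0 (K i q.1) (K x q.1) _ s0 s1 (by omega) l1 e1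
    refine e2.trans ?_
    have : (5 * C + 200 + 3 * c1 + c2 + c4) * (S + 1) ≤
        (5 * C + 200 + 3 * c1 + c2 + c4 + c3) * (S + 1) := Nat.mul_le_mul_right _ (by omega)
    omega
  · have e1 := hc4 y q.1
    have e2 := mk_lab_bound c1 c2 c4 C S b n0 (K j q.1) (K y q.1) _ s0 s2 (by omega) l2 e1
    refine e2.trans ?_
    have : (5 * C + 200 + 3 * c1 + c2 + c4) * (S + 1) ≤
        (5 * C + 200 + 3 * c1 + c2 + c4 + c3) * (S + 1) := Nat.mul_le_mul_right _ (by omega)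
    omega

end Pool.Agent.Helper760.GW.J1467
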