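import Mathlib
import Pool.Agent.Helper760.GW.Base2
import Pool.Agent.Helper760.GW.J1467

set_option autoImplicit false

namespace Pool.Agent.Helper760.GW

alias main_K := J1467.main_K

end Pool.Agent.Helper760.GW
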