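import Mathlib
import Pool.Agent.Helper760.Profile
import Pool.Agent.Helper760.GW.Base3

set_option autoImplicit false

namespace Pool.Agent.Helper760.GW.J1468

open Encodable MeasureTheory
open Pool.Agent.Helper760.Kolm
open Pool.Agent.Helper760.Cov (SizeN nG)

section finalproof

theorem oracleRec_of_partrec {f : ℕ →. ℕ} (hf : Nat.Partrec f) : OracleRec (fun _ => f) := by
  induction hf with
  | zero => exact OracleRec.zero
  | succ => exact OracleRec.succ
  | left => exact OracleRec.left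
  | right => exact OracleRec.right
  | pair _ _ ihf ihg => exact OracleRec.pair ihf ihg
  | comp _ _ ihf ihg => exact OracleRec.comp ihf ihg
  | prec _ _ ihf ihg => exact OracleRec.prec ihf ihg
  | rfind _ ih => exact OracleRec.rfind ih

theorem oracleDec_of_partrec (W : List Bool → List Bool →. List Bool) (hW : Partrec₂ W) :
    OracleDec (fun _ => W) := by
  refine ⟨fun _ n => Part.bind (decode (α := List Bool × List Bool) n) fun (a : List Bool × List Bool) => (W a.1 a.2).map encode,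
    oracleRec_of_partrec hW, ?_⟩
  intro A p y s
  have h : Nat.pair (encode p) (encode y) = encode ((p, y) : List Bool × List Bool) := by simp
  show s ∈ W p y ↔ encode s ∈ Part.bind (↑(decode (α := List Bool × List Bool) (Nat.pair (encode p) (encode y))))
    fun (a : List Bool × List Bool) => (W a.1 a.2).map encode
  rw [h, encodek]
  simp only [Part.coe_some, Part.bind_some, Part.mem_map_iff]
  constructor
  · intro hs; exact ⟨s, hs, rfl⟩
  · rintro ⟨s', hs', he⟩
    rwa [encode_injective he] at hs'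

/-- inverse of the pairing -/
noncomputable def unpr (pr : List Bool → List Bool → List Bool) (s : List Bool) :
    Part (List Bool × List Bool) :=
  Nat.rfindOpt (fun k => (decode (α := List Bool × List Bool) k).bind fun z =>
    if pr z.1 z.2 = s then some z else none)

theorem partrec_unpr (pr : List Bool → List Bool → List Bool) (hpr : Computable₂ pr) :
    Partrec (unpr pr) := by
  unfold unpr
  refine Partrec.rfindOpt (f := fun (s : List Bool) (k : ℕ) =>
    (decode (α := List Bool × List Bool) k).bind fun z =>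
      if pr z.1 z.2 = s then some z else none) ?_
  refine Computable.option_bind (Computable.decode.comp Computable.snd) ?_
  have h1 : Computable (fun x : (List Bool × ℕ) × (List Bool × List Bool) =>
      decide (pr x.2.1 x.2.2 = x.1.1)) := by
    have h := (Primrec.eq (α := List Bool)).decide.to_comp
    exact h.comp (hpr.comp (Computable.fst.comp Computable.snd) (Computable.snd.comp Computable.snd))
      (Computable.fst.comp Computable.fst)
  have h2 : Computable (fun x : (List Bool × ℕ) × (List Bool × List Bool) =>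
      bif decide (pr x.2.1 x.2.2 = x.1.1) then some x.2 else none) :=
    Computable.cond h1 (Computable.option_some.comp Computable.snd) (Computable.const none)
  have h3 : Computable (fun x : (List Bool × ℕ) × (List Bool × List Bool) =>
      if pr x.2.1 x.2.2 = x.1.1 then some x.2 else none) :=
    h2.of_eq (fun x => by by_cases h : pr x.2.1 x.2.2 = x.1.1 <;> simp [h])
  exact h3.to₂

theorem mem_unpr (pr : List Bool → List Bool → List Bool)
    (hinj : ∀ x y x' y', pr x y = pr x' y' → x = x' ∧ y = y') (x y : List Bool) :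
    (x, y) ∈ unpr pr (pr x y) := by
  have hdom : (unpr pr (pr x y)).Dom := by
    unfold unpr
    rw [Nat.rfindOpt_dom]
    refine ⟨encode ((x, y) : List Bool × List Bool), (x, y), ?_⟩
    rw [encodek]
    simp
  obtain ⟨z, hz⟩ := Part.dom_iff_mem.1 hdom
  have h := hz
  unfold unpr at h
  obtain ⟨k, hk⟩ := Nat.rfindOpt_spec h
  rw [Option.mem_def, Option.bind_eq_some_iff] at hk
  obtain ⟨z', _, hz'⟩ := hk
  split_ifs at hz' with hc
  cases hz'
  obtain ⟨h1, h2⟩ := hinj _ _ _ _ hc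
  have : z = (x, y) := Prod.ext h1 h2
  rwa [this] at hz

theorem condC_spec_D {D : List Bool → List Bool →. List Bool} (hD : OptimalCond D)
    (s y : List Bool) : ∃ p : List Bool, s ∈ D p y ∧ p.length = condC D s y := by
  have h : {m : ℕ | ∃ p : List Bool, s ∈ D p y ∧ p.length = m}.Nonempty := by
    obtain ⟨c, hc⟩ := hD.2 (fun p _ => Part.some p) (Computable.fst.partrec)
    obtain ⟨q, hq, _⟩ := hc s y s (Part.mem_some _)
    exact ⟨q.length, q, hq, rfl⟩
  exact Nat.sInf_mem h

theorem condC_le {D : List Bool → List Bool →. List Bool} {s y p : List Bool} (h : s ∈ D p y) :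
    condC D s y ≤ p.length := Nat.sInf_le ⟨p, h, rfl⟩

/-- the constants for the pairing: `sel` is a projection -/
theorem K_pr (D : List Bool → List Bool →. List Bool) (hD : OptimalCond D)
    (pr : List Bool → List Bool → List Bool) (hpr : Computable₂ pr)
    (hinj : ∀ x y x' y', pr x y = pr x' y' → x = x' ∧ y = y')
    (sel : List Bool × List Bool → List Bool) (hsel : Computable sel) :
    ∃ c : ℕ, ∀ (n : ℕ) (x y : List Bool), condC D (pr x y) [] ≤ n → K (sel (x, y)) () ≤ n + c := by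
  obtain ⟨cK, hK⟩ := condC_K D hD
  let φ : Unit × List Bool × Unit →. List Bool := fun x =>
    (M x.2.1 (encode ([] : List Bool))).bind fun d' =>
      (Part.ofOption (decode (α := List Bool) d')).bind fun d => (unpr pr d).map sel
  have hφ : Partrec φ := by
    refine Partrec.bind ?_ ?_
    · exact partrec_M.comp (Computable.fst.comp Computable.snd) (Computable.const _)
    · refine Partrec.bind ?_ ?_
      · exact (Computable.decode.comp Computable.snd).ofOption
      · exact Partrec.map ((partrec_unpr pr hpr).comp Computable.snd) (hsel.comp Computable.snd).to₂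
  obtain ⟨c, hc⟩ := K_param φ hφ
  refine ⟨c + cK, fun n x y hn => ?_⟩
  obtain ⟨p, hp, hl⟩ := K_spec (pr x y) ([] : List Bool)
  have h := hc () p () (sel (x, y)) (by
    simp only [φ, Part.mem_bind_iff]
    refine ⟨encode (pr x y), hp, pr x y, by simp, ?_⟩
    rw [Part.mem_map_iff]
    exact ⟨(x, y), mem_unpr pr hinj x y, rfl⟩)
  simp only [size_encode_unit] at h
  have h2 := (hK (pr x y) []).2
  omega

theorem V_pr (D : List Bool → List Bool →. List Bool) (hD : OptimalCond D)
    (V : (ℕ → Bool) → List Bool → List Bool →. List Bool) (hV : OptimalOracle V)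
    (pr : List Bool → List Bool → List Bool) (hpr : Computable₂ pr)
    (hinj : ∀ x y x' y', pr x y = pr x' y' → x = x' ∧ y = y')
    (sel : List Bool × List Bool → List Bool) (hsel : Computable sel) :
    ∃ c : ℕ, ∀ (n : ℕ) (x y : List Bool), condC D (pr x y) [] ≤ n → ∀ (A : ℕ → Bool) (q : List Bool),
      condC (V A) (sel (x, y)) q ≤ n + c := by
  let W : List Bool → List Bool →. List Bool := fun p _ =>
    (D p []).bind fun s => (unpr pr s).map sel
  have hW : Partrec₂ W := by
    refine Partrec.bind ?_ ?_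
    · exact Partrec₂.comp hD.1 Computable.fst (Computable.const [])
    · exact (Partrec.map ((partrec_unpr pr hpr).comp Computable.snd) (hsel.comp Computable.snd).to₂)
  obtain ⟨c, hc⟩ := hV.2 (fun _ => W) (oracleDec_of_partrec W hW)
  refine ⟨c, fun n x y hn A q => ?_⟩
  obtain ⟨p, hp, hl⟩ := condC_spec_D hD (pr x y) []
  obtain ⟨r, hr, hrl⟩ := hc A p q (sel (x, y)) (by
    simp only [W, Part.mem_bind_iff]
    refine ⟨pr x y, hp, ?_⟩
    rw [Part.mem_map_iff]
    exact ⟨(x, y), mem_unpr pr hinj x y, rfl⟩)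
  have := condC_le hr
  omega

theorem D_pr (D : List Bool → List Bool →. List Bool) (hD : OptimalCond D)
    (pr : List Bool → List Bool → List Bool) (hpr : Computable₂ pr)
    (hinj : ∀ x y x' y', pr x y = pr x' y' → x = x' ∧ y = y')
    (sel : List Bool × List Bool → List Bool) (hsel : Computable sel) :
    ∃ c : ℕ, ∀ (x y : List Bool), condC D (sel (x, y)) (pr x y) ≤ c := by
  let W : List Bool → List Bool →. List Bool := fun _ s => (unpr pr s).map sel
  have hW : Partrec₂ W :=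
    (Partrec.map ((partrec_unpr pr hpr).comp Computable.snd) (hsel.comp Computable.snd).to₂)
  obtain ⟨c, hc⟩ := hD.2 W hW
  refine ⟨c, fun x y => ?_⟩
  obtain ⟨r, hr, hrl⟩ := hc [] (pr x y) (sel (x, y)) (by
    simp only [W]
    rw [Part.mem_map_iff]
    exact ⟨(x, y), mem_unpr pr hinj x y, rfl⟩)
  have := condC_le hr
  simp at hrl
  omega

theorem one_le_logb (n : ℕ) (hn : 2 ≤ n) : (1 : ℝ) ≤ Real.logb 2 n := by
  rw [Real.le_logb_iff_rpow_le (by norm_num) (by positivity)]
  have : (2 : ℝ) ≤ n := by exact_mod_cast hn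
  simpa using this

theorem size_le_logb (n : ℕ) (hn : 2 ≤ n) : (Nat.size n : ℝ) ≤ 2 * Real.logb 2 n := by
  have h1 := one_le_logb n hn
  have h2 : (Nat.size n : ℝ) ≤ Real.logb 2 n + 1 := by
    have hs : Nat.size n ≠ 0 := by
      rw [Ne, Nat.size_eq_zero]; omega
    have h3 : 2 ^ (Nat.size n - 1) ≤ n := by
      rw [← Nat.lt_size]
      omega
    have h4 : ((Nat.size n - 1 : ℕ) : ℝ) ≤ Real.logb 2 n := by
      rw [Real.le_logb_iff_rpow_le (by norm_num) (by positivity), Real.rpow_natCast]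
      exact_mod_cast h3
    have h5 : ((Nat.size n - 1 : ℕ) : ℝ) = (Nat.size n : ℝ) - 1 := by
      rw [Nat.cast_sub (by omega)]; simp
    linarith
  linarith

end finalproof

theorem final (D : List Bool → List Bool →. List Bool) (hD : OptimalCond D)
    (V : (ℕ → Bool) → List Bool → List Bool →. List Bool) (hV : OptimalOracle V)
    (pr : List Bool → List Bool → List Bool) (hpr : Computable₂ pr)
    (hinj : ∀ x y x' y', pr x y = pr x' y' → x = x' ∧ y = y') (ε : ℝ) (hε : 0 < ε) :
    ∃ c : ℝ, ∀ n : ℕ, 2 ≤ n → ∀ x y : List Bool, condC D (pr x y) [] ≤ n →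
      coin {A | ¬ GW (V A) x y ⊆ GWplus (c * Real.logb 2 n) D x y} ≤ ENNReal.ofReal ε := by
  classical
  obtain ⟨cK, hK⟩ := condC_K D hD
  obtain ⟨c1, hmain⟩ := main_K V hV
  obtain ⟨k1, hk1⟩ := K_pr D hD pr hpr hinj Prod.fst Computable.fst
  obtain ⟨k2, hk2⟩ := K_pr D hD pr hpr hinj Prod.snd Computable.snd
  obtain ⟨v1, hv1⟩ := V_pr D hD V hV pr hpr hinj Prod.fst Computable.fst
  obtain ⟨v2, hv2⟩ := V_pr D hD V hV pr hpr hinj Prod.snd Computable.snd
  obtain ⟨d1, hd1⟩ := D_pr D hD pr hpr hinj Prod.fst Computable.fst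
  obtain ⟨d2, hd2⟩ := D_pr D hD pr hpr hinj Prod.snd Computable.snd
  -- the bound for 1 / ε
  obtain ⟨E0, hE0⟩ : ∃ E0 : ℕ, 1 / ε ≤ 2 ^ E0 := by
    obtain ⟨m, hm⟩ := pow_unbounded_of_one_lt (1 / ε) (show (1 : ℝ) < 2 by norm_num)
    exact ⟨m, hm.le⟩
  let c3 : ℕ := k1 + k2 + v1 + v2 + d1 + d2
  let N0 : ℕ → ℕ := fun n => n + c3
  let κ : ℕ → ℕ := fun n => 3 * Nat.size (N0 n + 1) + E0
  let req : ℕ → ℕ := fun n => κ n + c1 * (Nat.size (4 * N0 n + κ n) + 1) + cK + c3
  -- logarithmic bound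
  obtain ⟨c, hc0, hc⟩ : ∃ c : ℝ, 0 ≤ c ∧ ∀ n : ℕ, 2 ≤ n → (req n : ℝ) ≤ c * Real.logb 2 n := by
    let α : ℕ := 3 * Nat.size (c3 + 2) + E0 + c1 * (Nat.size (7 * c3 + E0 + 10) + 1) + cK + c3
    let β : ℕ := 3 + c1
    refine ⟨(α : ℝ) + 2 * β, by positivity, fun n hn => ?_⟩
    have h1 : Nat.size (N0 n + 1) ≤ Nat.size n + Nat.size (c3 + 2) := by
      refine (size_mono ?_).trans (size_mul_le n (c3 + 2))
      show n + c3 + 1 ≤ n * (c3 + 2)
      nlinarith
    have h2 : Nat.size (4 * N0 n + κ n) ≤ Nat.size n + Nat.size (7 * c3 + E0 + 10) := by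
      refine (size_mono ?_).trans (size_mul_le n (7 * c3 + E0 + 10))
      have h3 : Nat.size (N0 n + 1) ≤ N0 n + 1 := size_le_self _
      have h4 : 4 * N0 n + κ n ≤ 7 * N0 n + 3 + E0 := by
        show 4 * N0 n + (3 * Nat.size (N0 n + 1) + E0) ≤ _
        omega
      refine h4.trans ?_
      show 7 * (n + c3) + 3 + E0 ≤ n * (7 * c3 + E0 + 10)
      nlinarith
    have h3 : req n ≤ α + β * Nat.size n := by
      show 3 * Nat.size (N0 n + 1) + E0 + c1 * (Nat.size (4 * N0 n + κ n) + 1) + cK + c3 ≤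
        3 * Nat.size (c3 + 2) + E0 + c1 * (Nat.size (7 * c3 + E0 + 10) + 1) + cK + c3 +
          (3 + c1) * Nat.size n
      have h4 : c1 * (Nat.size (4 * N0 n + κ n) + 1) ≤
          c1 * (Nat.size n + Nat.size (7 * c3 + E0 + 10) + 1) := Nat.mul_le_mul_left _ (by omega)
      nlinarith
    have h4 : (req n : ℝ) ≤ (α : ℝ) + β * Nat.size n := by exact_mod_cast h3
    have h5 := size_le_logb n hn
    have h6 := one_le_logb n hn
    have h7 : (0 : ℝ) ≤ α := by positivity
    have h8 : (0 : ℝ) ≤ β := by positivity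
    nlinarith
  refine ⟨c, fun n hn x y hxy => ?_⟩
  set δ : ℝ := c * Real.logb 2 n with hδ
  have hreq : (req n : ℝ) ≤ δ := hc n hn
  have hreq' : ((κ n + c1 * (Nat.size (4 * N0 n + κ n) + 1) + cK + c3 : ℕ) : ℝ) ≤ δ := hreq
  have hδ0 : 0 ≤ δ := (Nat.cast_nonneg _).trans hreq
  have hc3 : (c3 : ℝ) ≤ δ := by
    refine le_trans ?_ hreq'
    exact_mod_cast (by omega : c3 ≤ κ n + c1 * (Nat.size (4 * N0 n + κ n) + 1) + cK + c3)
  have hKx : K x () ≤ N0 n := (hk1 n x y hxy).trans (by show n + k1 ≤ n + c3; omega)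
  have hKy : K y () ≤ N0 n := (hk2 n x y hxy).trans (by show n + k2 ≤ n + c3; omega)
  have hVx : ∀ A q, condC (V A) x q ≤ N0 n := fun A q =>
    (hv1 n x y hxy A q).trans (by show n + v1 ≤ n + c3; omega)
  have hVy : ∀ A q, condC (V A) y q ≤ N0 n := fun A q =>
    (hv2 n x y hxy A q).trans (by show n + v2 ≤ n + c3; omega)
  have hDx : (condC D x (pr x y) : ℝ) ≤ δ := by
    refine le_trans ?_ hc3
    exact_mod_cast (hd1 x y).trans (by omega : d1 ≤ c3)
  have hDy : (condC D y (pr x y) : ℝ) ≤ δ := by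
    refine le_trans ?_ hc3
    exact_mod_cast (hd2 x y).trans (by omega : d2 ≤ c3)
  -- good triples
  let Good : ℕ → ℕ → ℕ → Prop := fun a b g => ∃ q' : List Bool,
    (condC D q' [] : ℝ) ≤ g + δ ∧ (condC D x q' : ℝ) ≤ a + δ ∧ (condC D y q' : ℝ) ≤ b + δ
  let E : ℕ → ℕ → ℕ → Set (ℕ → Bool) := fun a b g =>
    {A | ∃ q, condC (V A) q [] ≤ g ∧ condC (V A) x q ≤ a ∧ condC (V A) y q ≤ b}
  let S : Finset (ℕ × ℕ × ℕ) := (Finset.range (N0 n + 1) ×ˢ
    (Finset.range (N0 n + 1) ×ˢ Finset.range (N0 n + 1))).filter fun t => ¬ Good t.1 t.2.1 t.2.2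
  have hsub : {A | ¬ GW (V A) x y ⊆ GWplus δ D x y} ⊆ ⋃ t ∈ S, E t.1 t.2.1 t.2.2 := by
    intro A hA
    simp only [Set.mem_ofPred_eq, Set.not_subset] at hA
    obtain ⟨⟨α, β, γ⟩, hin, hout⟩ := hA
    obtain ⟨h0a, h0b, h0g, q, hq1, hq2, hq3⟩ := hin
    simp only at h0a h0b h0g hq1 hq2 hq3
    have hg1 : condC (V A) q [] ≤ ⌊γ⌋₊ := Nat.le_floor hq1
    have ha1 : condC (V A) x q ≤ min ⌊α⌋₊ (N0 n) := le_min (Nat.le_floor hq2) (hVx A q)
    have hb1 : condC (V A) y q ≤ min ⌊β⌋₊ (N0 n) := le_min (Nat.le_floor hq3) (hVy A q)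
    have hng : ¬ Good (min ⌊α⌋₊ (N0 n)) (min ⌊β⌋₊ (N0 n)) ⌊γ⌋₊ := by
      rintro ⟨q', e1, e2, e3⟩
      apply hout
      have ea : ((min ⌊α⌋₊ (N0 n) : ℕ) : ℝ) ≤ α := by
        refine le_trans ?_ (Nat.floor_le h0a)
        exact_mod_cast min_le_left _ _
      have eb : ((min ⌊β⌋₊ (N0 n) : ℕ) : ℝ) ≤ β := by
        refine le_trans ?_ (Nat.floor_le h0b)
        exact_mod_cast min_le_left _ _
      have eg : ((⌊γ⌋₊ : ℕ) : ℝ) ≤ γ := Nat.floor_le h0g
      show (α + δ, β + δ, γ + δ) ∈ GW D x y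
      exact ⟨by simp only; linarith, by simp only; linarith, by simp only; linarith, q',
        by simp only; linarith, by simp only; linarith, by simp only; linarith⟩
    have hgN : ⌊γ⌋₊ < N0 n + 1 := by
      by_contra hcon
      apply hng
      refine ⟨pr x y, ?_, ?_, ?_⟩
      · have h1 : (condC D (pr x y) [] : ℝ) ≤ n := by exact_mod_cast hxy
        have h2 : (n : ℝ) ≤ (⌊γ⌋₊ : ℕ) := by
          have : n ≤ ⌊γ⌋₊ := by
            have : N0 n = n + c3 := rfl
            omega
          exact_mod_cast this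
        linarith
      · have : (0:ℝ) ≤ ((min ⌊α⌋₊ (N0 n) : ℕ) : ℝ) := Nat.cast_nonneg _
        linarith
      · have : (0:ℝ) ≤ ((min ⌊β⌋₊ (N0 n) : ℕ) : ℝ) := Nat.cast_nonneg _
        linarith
    simp only [Set.mem_iUnion]
    refine ⟨(min ⌊α⌋₊ (N0 n), min ⌊β⌋₊ (N0 n), ⌊γ⌋₊), ?_, q, hg1, ha1, hb1⟩
    simp only [S, Finset.mem_filter, Finset.mem_product, Finset.mem_range]
    refine ⟨⟨?_, ?_, hgN⟩, hng⟩
    · exact Nat.lt_succ_of_le (min_le_right _ _)
    · exact Nat.lt_succ_of_le (min_le_right _ _)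
  have hE : ∀ t ∈ S, coin (E t.1 t.2.1 t.2.2) ≤ ((2 : ENNReal) ^ κ n)⁻¹ := by
    rintro ⟨a, b, g⟩ ht
    simp only [S, Finset.mem_filter, Finset.mem_product, Finset.mem_range] at ht
    obtain ⟨⟨ha, hb, hg⟩, hng⟩ := ht
    by_contra hcon
    rw [not_le] at hcon
    obtain ⟨q', e1, e2, e3⟩ := hmain (N0 n) a b g (κ n) x y hKx hKy hcon
    apply hng
    have hsz : Nat.size (N0 n + a + b + g + κ n) ≤ Nat.size (4 * N0 n + κ n) :=
      size_mono (by omega)
    have hsz' : c1 * (Nat.size (N0 n + a + b + g + κ n) + 1) ≤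
        c1 * (Nat.size (4 * N0 n + κ n) + 1) := Nat.mul_le_mul_left _ (by omega)
    have f1 := (hK q' []).1
    have f2 := (hK x q').1
    have f3 := (hK y q').1
    have hR : ((κ n + c1 * (Nat.size (4 * N0 n + κ n) + 1) + cK : ℕ) : ℝ) ≤ δ := by
      refine le_trans ?_ hreq'
      exact_mod_cast (by omega : κ n + c1 * (Nat.size (4 * N0 n + κ n) + 1) + cK ≤
        κ n + c1 * (Nat.size (4 * N0 n + κ n) + 1) + cK + c3)
    refine ⟨q', ?_, ?_, ?_⟩
    · have : condC D q' [] ≤ g + (κ n + c1 * (Nat.size (4 * N0 n + κ n) + 1) + cK) := by omega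
      have : (condC D q' [] : ℝ) ≤ g + ((κ n + c1 * (Nat.size (4 * N0 n + κ n) + 1) + cK : ℕ) : ℝ) := by
        exact_mod_cast this
      linarith
    · have : condC D x q' ≤ a + (κ n + c1 * (Nat.size (4 * N0 n + κ n) + 1) + cK) := by omega
      have : (condC D x q' : ℝ) ≤ a + ((κ n + c1 * (Nat.size (4 * N0 n + κ n) + 1) + cK : ℕ) : ℝ) := by
        exact_mod_cast this
      linarith
    · have : condC D y q' ≤ b + (κ n + c1 * (Nat.size (4 * N0 n + κ n) + 1) + cK) := by omega
      have : (condC D y q' : ℝ) ≤ b + ((κ n + c1 * (Nat.size (4 * N0 n + κ n) + 1) + cK : ℕ) : ℝ) := by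
        exact_mod_cast this
      linarith
  have hcard : S.card ≤ (N0 n + 1) ^ 3 := by
    refine (Finset.card_filter_le _ _).trans ?_
    rw [Finset.card_product, Finset.card_product, Finset.card_range]
    exact le_of_eq (by ring)
  calc coin {A | ¬ GW (V A) x y ⊆ GWplus δ D x y}
      ≤ coin (⋃ t ∈ S, E t.1 t.2.1 t.2.2) := measure_mono hsub
    _ ≤ ∑ t ∈ S, coin (E t.1 t.2.1 t.2.2) := measure_biUnion_finset_le _ _
    _ ≤ ∑ t ∈ S, ((2 : ENNReal) ^ κ n)⁻¹ := Finset.sum_le_sum hE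
    _ = S.card * ((2 : ENNReal) ^ κ n)⁻¹ := by rw [Finset.sum_const, nsmul_eq_mul]
    _ ≤ ((N0 n + 1) ^ 3 : ℕ) * ((2 : ENNReal) ^ κ n)⁻¹ := by gcongr
    _ ≤ ENNReal.ofReal ε := by
        have h1 : (N0 n + 1) ^ 3 ≤ 2 ^ (3 * Nat.size (N0 n + 1)) := by
          rw [mul_comm, pow_mul]
          exact Nat.pow_le_pow_left (Nat.lt_size_self _).le 3
        have h2 : ((N0 n + 1 : ℝ)) ^ 3 ≤ 2 ^ (3 * Nat.size (N0 n + 1)) := by exact_mod_cast h1
        have h3 : ((N0 n + 1 : ℝ)) ^ 3 ≤ ε * 2 ^ κ n := by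
          show ((N0 n + 1 : ℝ)) ^ 3 ≤ ε * 2 ^ (3 * Nat.size (N0 n + 1) + E0)
          rw [pow_add]
          have h4 : 1 ≤ ε * 2 ^ E0 := by
            rw [div_le_iff₀ hε] at hE0
            linarith
          have h5 : (0:ℝ) ≤ 2 ^ (3 * Nat.size (N0 n + 1)) := by positivity
          nlinarith
        rw [← div_eq_mul_inv, ENNReal.div_le_iff (by positivity) (by finiteness)]
        have h6 : ENNReal.ofReal ε * 2 ^ κ n = ENNReal.ofReal (ε * 2 ^ κ n) := by
          rw [ENNReal.ofReal_mul hε.le, ENNReal.ofReal_pow (by norm_num)]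
          norm_num
        rw [h6]
        have h7 : (((N0 n + 1) ^ 3 : ℕ) : ENNReal) = ENNReal.ofReal (((N0 n + 1 : ℝ)) ^ 3) := by
          rw [← ENNReal.ofReal_natCast]
          congr 1
          push_cast
          rfl
        rw [h7]
        exact ENNReal.ofReal_le_ofReal h3

end Pool.Agent.Helper760.GW.J1468
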